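import Mathlib

set_option autoImplicit false

/-!
Sums of products of the numbers `binom(2m, m) / 4^m`.
-/

namespace Pool.Agent.U214.Kn

open Finset

/-- `binom(2m, m) / 4^m` -/
noncomputable def c (m : ℕ) : ℚ := (Nat.centralBinom m : ℚ) / 4 ^ m

theorem c_zero : c 0 = 1 := by simp [c]

theorem c_succ (m : ℕ) : 2 * ((m : ℚ) + 1) * c (m + 1) = (2 * m + 1) * c m := by
  have h' : ((m : ℚ) + 1) * (Nat.centralBinom (m + 1) : ℚ) =
      2 * (2 * m + 1) * Nat.centralBinom m := by exact_mod_cast Nat.succ_mul_centralBinom_succ m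
  unfold c
  rw [pow_succ]
  field_simp
  linarith

theorem refl_c (N : ℕ) : 2 * ∑ l ∈ range (N + 1), (l : ℚ) * (c l * c (N - l)) =
    N * ∑ l ∈ range (N + 1), c l * c (N - l) := by
  have h : ∑ l ∈ range (N + 1), (l : ℚ) * (c l * c (N - l)) =
      ∑ l ∈ range (N + 1), ((N : ℚ) - l) * (c l * c (N - l)) := by
    rw [← Finset.sum_range_reflect]
    refine Finset.sum_congr rfl fun l hl => ?_
    have hl' : l ≤ N := by rw [mem_range] at hl; omega
    have h1 : N + 1 - 1 - l = N - l := by omega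
    have h2 : N - (N - l) = l := by omega
    rw [h1, h2, Nat.cast_sub hl']
    ring
  have h2 : ∑ l ∈ range (N + 1), ((N : ℚ) - l) * (c l * c (N - l)) =
      N * (∑ l ∈ range (N + 1), c l * c (N - l)) -
        ∑ l ∈ range (N + 1), (l : ℚ) * (c l * c (N - l)) := by
    rw [Finset.mul_sum, ← Finset.sum_sub_distrib]
    refine Finset.sum_congr rfl fun l _ => ?_
    ring
  rw [h2] at h
  linarith

theorem sum_c (N : ℕ) : ∑ l ∈ range (N + 1), c l * c (N - l) = 1 := by
  induction N with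
  | zero => simp [c_zero]
  | succ N ih =>
    have h1 := refl_c (N + 1)
    have h2 := refl_c N
    rw [ih] at h2
    have h3 : 2 * ∑ l ∈ range (N + 1 + 1), (l : ℚ) * (c l * c (N + 1 - l)) =
        2 * (∑ l ∈ range (N + 1), (l : ℚ) * (c l * c (N - l))) +
          ∑ l ∈ range (N + 1), c l * c (N - l) := by
      rw [Finset.sum_range_succ', Nat.cast_zero, zero_mul, add_zero, Finset.mul_sum,
        Finset.mul_sum, ← Finset.sum_add_distrib]
      refine Finset.sum_congr rfl fun l hl => ?_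
      have e1 : N + 1 - (l + 1) = N - l := by omega
      rw [e1]
      have := c_succ l
      push_cast
      calc 2 * (((l : ℚ) + 1) * (c (l + 1) * c (N - l))) =
          (2 * ((l : ℚ) + 1) * c (l + 1)) * c (N - l) := by ring
        _ = _ := by rw [this]; ring
    rw [h3, ih, h2] at h1
    have h4 : ((N : ℚ) + 1) ≠ 0 := by positivity
    push_cast at h1
    apply mul_left_cancel₀ h4
    linarith

theorem half_odd (m : ℕ) : ∑ l ∈ Ico (m + 1) (2 * m + 2), c l * c (2 * m + 1 - l) = 1 / 2 := by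
  have h := sum_c (2 * m + 1)
  rw [← Finset.sum_range_add_sum_Ico _ (by omega : m + 1 ≤ 2 * m + 1 + 1)] at h
  have h2 : ∑ l ∈ range (m + 1), c l * c (2 * m + 1 - l) =
      ∑ l ∈ Ico (m + 1) (2 * m + 1 + 1), c l * c (2 * m + 1 - l) := by
    rw [Finset.sum_Ico_eq_sum_range, ← Finset.sum_range_reflect]
    have e : 2 * m + 1 + 1 - (m + 1) = m + 1 := by omega
    rw [e]
    refine Finset.sum_congr rfl fun l hl => ?_
    rw [mem_range] at hl
    have e1 : m + 1 - 1 - l = m - l := by omega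
    have e2 : 2 * m + 1 - (m - l) = m + 1 + l := by omega
    have e3 : 2 * m + 1 - (m + 1 + l) = m - l := by omega
    rw [e1, e2, e3, mul_comm]
  rw [h2] at h
  have e : 2 * m + 1 + 1 = 2 * m + 2 := by ring
  rw [e] at h
  linarith

theorem half_even' (m : ℕ) :
    ∑ l ∈ Ico (m + 1) (2 * m + 1), c l * c (2 * m - l) = (1 - c m ^ 2) / 2 := by
  have h := sum_c (2 * m)
  rw [← Finset.sum_range_add_sum_Ico _ (by omega : m + 1 ≤ 2 * m + 1),
    Finset.sum_range_succ] at h
  have h2 : ∑ l ∈ range m, c l * c (2 * m - l) =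
      ∑ l ∈ Ico (m + 1) (2 * m + 1), c l * c (2 * m - l) := by
    rw [Finset.sum_Ico_eq_sum_range, ← Finset.sum_range_reflect]
    have e : 2 * m + 1 - (m + 1) = m := by omega
    rw [e]
    refine Finset.sum_congr rfl fun l hl => ?_
    rw [mem_range] at hl
    have e2 : 2 * m - (m - 1 - l) = m + 1 + l := by omega
    have e3 : 2 * m - (m + 1 + l) = m - 1 - l := by omega
    rw [e2, e3, mul_comm]
  rw [h2] at h
  have e : 2 * m - m = m := by omega
  rw [e] at h
  linarith

theorem half_even (m : ℕ) :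
    ∑ l ∈ Ico m (2 * m + 1), c l * c (2 * m - l) = (1 + c m ^ 2) / 2 := by
  rw [Finset.sum_eq_sum_Ico_succ_bot (by omega), half_even']
  have e : 2 * m - m = m := by omega
  rw [e]
  ring

/-- first telescoping sum -/
theorem tele1 (N l0 : ℕ) (h0 : l0 ≤ N + 1) :
    ∑ l ∈ Ico l0 (N + 1), (2 * (l : ℚ) - N) * (c l * c (N - l)) =
      2 * ((l0 : ℚ) * c l0) * (((N + 1 - l0 : ℕ) : ℚ) * c (N + 1 - l0)) := by
  obtain ⟨j, hj⟩ : ∃ j, j = N + 1 - l0 := ⟨_, rfl⟩
  induction j generalizing l0 with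
  | zero =>
    have : l0 = N + 1 := by omega
    subst this
    simp
  | succ j ih =>
    have hlt : l0 < N + 1 := by omega
    rw [Finset.sum_eq_sum_Ico_succ_bot hlt, ih (l0 + 1) (by omega) (by omega)]
    have e1 : N + 1 - (l0 + 1) = N - l0 := by omega
    have e2 : N + 1 - l0 = (N - l0) + 1 := by omega
    rw [e1, e2]
    have h1 := c_succ l0
    have h2 := c_succ (N - l0)
    have h3 : ((N - l0 : ℕ) : ℚ) = N - l0 := by rw [Nat.cast_sub (by omega)]
    rw [h3] at h2
    push_cast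
    rw [h3]
    set x := c l0
    set y := c (N - l0)
    have e3 : 2 * (((l0 : ℚ) + 1) * c (l0 + 1)) * (((N : ℚ) - l0) * y) =
        ((2 * (l0 : ℚ) + 1) * x) * (((N : ℚ) - l0) * y) := by rw [← h1]; ring
    have e4 : 2 * ((l0 : ℚ) * x) * (((N : ℚ) - l0 + 1) * c (N - l0 + 1)) =
        ((l0 : ℚ) * x) * ((2 * ((N : ℚ) - l0) + 1) * y) := by rw [← h2]; ring
    rw [e3, e4]
    ring

/-- second telescoping sum -/
theorem tele2 (N j0 : ℕ) (h0 : j0 ≤ N) :
    ∑ j ∈ Ico j0 (N + 1), (((N - j : ℕ) : ℚ) / ((j : ℚ) + 1)) * (c j * c (N - j)) =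
      2 * (c j0 * (((N - j0 : ℕ) : ℚ) * c (N - j0))) -
        ∑ j ∈ Ico (j0 + 1) (N + 1), c j * c (N - j) := by
  obtain ⟨k, hk⟩ : ∃ k, k = N - j0 := ⟨_, rfl⟩
  induction k generalizing j0 with
  | zero =>
    have : j0 = N := by omega
    subst this
    simp
  | succ k ih =>
    have hlt : j0 < N + 1 := by omega
    rw [Finset.sum_eq_sum_Ico_succ_bot hlt, ih (j0 + 1) (by omega) (by omega)]
    have e0 : ∑ j ∈ Ico (j0 + 1) (N + 1), c j * c (N - j) =
        c (j0 + 1) * c (N - (j0 + 1)) + ∑ j ∈ Ico (j0 + 1 + 1) (N + 1), c j * c (N - j) :=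
      Finset.sum_eq_sum_Ico_succ_bot (by omega) _
    rw [e0]
    have e2 : N - j0 = (N - (j0 + 1)) + 1 := by omega
    have h1 := c_succ j0
    have h2 := c_succ (N - (j0 + 1))
    rw [e2]
    set M := N - (j0 + 1)
    push_cast
    set x := c j0
    set y := c M
    have hj : ((j0 : ℚ) + 1) ≠ 0 := by positivity
    have e3 : c (j0 + 1) = (2 * j0 + 1) * x / (2 * ((j0 : ℚ) + 1)) := by
      rw [← h1]; field_simp
    have hM : ((M : ℚ) + 1) ≠ 0 := by positivity
    have e4 : c (M + 1) = (2 * M + 1) * y / (2 * ((M : ℚ) + 1)) := by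
      rw [← h2]; field_simp
    rw [e3, e4]
    field_simp
    ring

end Pool.Agent.U214.Kn
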