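import Mathlib
import Pool.Agent.U214.Kn.Sums

set_option autoImplicit false

/-!
Middle coefficients of `(1 + X)^p (1 - X)^q`.
-/

namespace Pool.Agent.U214.Kn

open Finset Polynomial

/-- the polynomial `(1 + X)^p (1 - X)^q` -/
noncomputable def pp (p q : ℕ) : ℚ[X] := (1 + X) ^ p * (1 - X) ^ q

theorem coeff_X_mul_derivative (P : ℚ[X]) (N : ℕ) :
    (X * derivative P).coeff N = N * P.coeff N := by
  cases N with
  | zero => simp
  | succ N => rw [coeff_X_mul, coeff_derivative]; push_cast; ring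

theorem rec_general (p q : ℕ) :
    ((p : ℚ[X]) + 1) * pp p (q + 2) + ((q : ℚ[X]) + 1) * pp (p + 2) q =
      ((p : ℚ[X]) + (q : ℚ[X]) + 2) * pp (p + 1) (q + 1) - 2 * (X * derivative (pp (p + 1) (q + 1))) := by
  unfold pp
  simp only [derivative_mul, derivative_pow, derivative_add, derivative_sub, derivative_one,
    derivative_X, Nat.cast_add, Nat.cast_one, Nat.add_sub_cancel]
  simp only [map_add, map_one, map_natCast]
  ring

theorem rec_zero (q : ℕ) :
    ((q : ℚ[X]) + 1) * pp 1 q =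
      ((q : ℚ[X]) + 1) * pp 0 (q + 1) - 2 * (X * derivative (pp 0 (q + 1))) := by
  unfold pp
  simp only [derivative_mul, derivative_pow, derivative_add, derivative_sub, derivative_one,
    derivative_X, Nat.cast_add, Nat.cast_one, Nat.add_sub_cancel]
  simp only [map_add, map_one, map_natCast]
  ring

theorem mid_rec (N p q : ℕ) (h : p + q + 2 = 2 * N) :
    ((p : ℚ) + 1) * (pp p (q + 2)).coeff N + ((q : ℚ) + 1) * (pp (p + 2) q).coeff N = 0 := by
  have h1 := congrArg (fun P : ℚ[X] => P.coeff N) (rec_general p q)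
  have e1 : ((p : ℚ[X]) + 1) = C ((p : ℚ) + 1) := by simp
  have e2 : ((q : ℚ[X]) + 1) = C ((q : ℚ) + 1) := by simp
  have e3 : ((p : ℚ[X]) + (q : ℚ[X]) + 2) = C ((p : ℚ) + (q : ℚ) + 2) := by
    simp only [map_add, map_natCast]; rfl
  have e4 : (2 : ℚ[X]) = C 2 := rfl
  rw [e1, e2, e3, e4] at h1
  simp only [coeff_add, coeff_sub, coeff_C_mul, coeff_X_mul_derivative] at h1
  rw [h1]
  have h2 : ((p : ℚ) + q + 2) = 2 * N := by exact_mod_cast h
  rw [h2]
  ring

theorem mid_one (N : ℕ) (hN : 1 ≤ N) : (pp 1 (2 * N - 1)).coeff N = 0 := by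
  obtain ⟨q, hq⟩ : ∃ q, 2 * N = q + 1 := ⟨2 * N - 1, by omega⟩
  have e : 2 * N - 1 = q := by omega
  rw [e]
  have h1 := congrArg (fun P : ℚ[X] => P.coeff N) (rec_zero q)
  have e2 : ((q : ℚ[X]) + 1) = C ((q : ℚ) + 1) := by simp
  have e4 : (2 : ℚ[X]) = C 2 := rfl
  rw [e2, e4] at h1
  simp only [coeff_sub, coeff_C_mul, coeff_X_mul_derivative] at h1
  have h2 : ((q : ℚ) + 1) = 2 * N := by exact_mod_cast hq.symm
  rw [h2] at h1
  have h3 : (2 * (N : ℚ)) ≠ 0 := by
    have : (0 : ℚ) < N := by exact_mod_cast hN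
    positivity
  apply mul_left_cancel₀ h3
  rw [h1]
  ring

/-- the middle coefficient vanishes for odd exponents -/
theorem mid_odd (N l : ℕ) (hl : l < N) : (pp (2 * l + 1) (2 * N - 2 * l - 1)).coeff N = 0 := by
  induction l with
  | zero => simpa using mid_one N (by omega)
  | succ l ih =>
    have ih' := ih (by omega)
    have h := mid_rec N (2 * l + 1) (2 * N - 2 * l - 3) (by omega)
    have e1 : 2 * N - 2 * l - 3 + 2 = 2 * N - 2 * l - 1 := by omega
    have e2 : 2 * (l + 1) + 1 = 2 * l + 1 + 2 := by ring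
    have e3 : 2 * N - 2 * (l + 1) - 1 = 2 * N - 2 * l - 3 := by omega
    rw [e1, ih', mul_zero, zero_add] at h
    rw [e2, e3]
    have h3 : (((2 * N - 2 * l - 3 : ℕ) : ℚ) + 1) ≠ 0 := by positivity
    exact (mul_eq_zero.1 h).resolve_left h3

/-- the middle coefficient for even exponents -/
theorem mid_even (N l : ℕ) (hl : l ≤ N) :
    ((-1 : ℚ) ^ (N - l) * (N.choose l : ℚ)) * (pp (2 * l) (2 * N - 2 * l)).coeff N =
      4 ^ N * (c l * c (N - l)) := by
  induction l with
  | zero =>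
    rw [mul_zero, Nat.sub_zero, Nat.sub_zero, Nat.choose_zero_right, Nat.cast_one, mul_one,
      c_zero, one_mul]
    have h : (pp 0 (2 * N)).coeff N = (-1) ^ N * (Nat.centralBinom N : ℚ) := by
      unfold pp
      rw [pow_zero, one_mul, sub_eq_add_neg, add_comm, show (-X : ℚ[X]) = C (-1) * X by simp,
        ← map_one (C : ℚ →+* ℚ[X])]
      rw [Nat.centralBinom_eq_two_mul_choose]
      have : (C (-1) * X + C 1 : ℚ[X]) ^ (2 * N) = ((X + C 1) ^ (2 * N) : ℚ[X]).comp (C (-1) * X) := by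
        simp
      rw [this, comp_C_mul_X_coeff, coeff_X_add_C_pow]
      simp
      ring
    rw [h]
    unfold c
    have h4 : (4 : ℚ) ^ N ≠ 0 := by positivity
    have h5 : ((-1 : ℚ) ^ N) * ((-1) ^ N) = 1 := by rw [← mul_pow]; norm_num
    rw [← mul_assoc, h5, one_mul, mul_div_cancel₀ _ h4]
  | succ l ih =>
    have ih' := ih (by omega)
    have h := mid_rec N (2 * l) (2 * N - 2 * l - 2) (by omega)
    have e1 : 2 * N - 2 * l - 2 + 2 = 2 * N - 2 * l := by omega
    have e2 : 2 * (l + 1) = 2 * l + 2 := by ring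
    have e3 : 2 * N - (2 * l + 2) = 2 * N - 2 * l - 2 := by omega
    rw [e1] at h
    rw [e2, e3]
    set a0 := (pp (2 * l) (2 * N - 2 * l)).coeff N
    set a1 := (pp (2 * l + 2) (2 * N - 2 * l - 2)).coeff N
    obtain ⟨M, hM⟩ : ∃ M, N = l + 1 + M := ⟨N - (l + 1), by omega⟩
    have f1 : N - (l + 1) = M := by omega
    have f2 : N - l = M + 1 := by omega
    rw [f1]
    rw [f2] at ih'
    have hch : ((l : ℚ) + 1) * (N.choose (l + 1) : ℚ) = (M + 1) * N.choose l := by
      have := Nat.choose_succ_right_eq N l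
      rw [f2] at this
      have h' : ((N.choose (l + 1) * (l + 1) : ℕ) : ℚ) = ((N.choose l * (M + 1) : ℕ) : ℚ) := by
        rw [this]
      push_cast at h'
      linarith
    have hq : ((2 * N - 2 * l - 2 : ℕ) : ℚ) = 2 * M := by
      have : 2 * N - 2 * l - 2 = 2 * M := by omega
      rw [this]; push_cast; ring
    rw [hq] at h
    push_cast at h
    have c1 := c_succ l
    have c2 := c_succ M
    have hl1 : ((l : ℚ) + 1) ≠ 0 := by positivity
    have hM1 : (2 * (M : ℚ) + 1) ≠ 0 := by positivity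
    have key : ((l : ℚ) + 1) * (2 * M + 1) * ((-1) ^ M * (N.choose (l + 1) : ℚ) * a1) =
        ((l : ℚ) + 1) * (2 * M + 1) * (4 ^ N * (c (l + 1) * c M)) := by
      have t1 : ((l : ℚ) + 1) * (2 * M + 1) * ((-1) ^ M * (N.choose (l + 1) : ℚ) * a1) =
          (-1) ^ M * (((l : ℚ) + 1) * (N.choose (l + 1) : ℚ)) * ((2 * M + 1) * a1) := by ring
      have t2 : (2 * (M : ℚ) + 1) * a1 = - ((2 * l + 1) * a0) := by linarith
      rw [t1, hch, t2]
      have t3 : (-1 : ℚ) ^ M * (((M : ℚ) + 1) * (N.choose l : ℚ)) * (-((2 * l + 1) * a0)) =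
          (M + 1) * (2 * l + 1) * ((-1) ^ (M + 1) * (N.choose l : ℚ) * a0) := by
        rw [pow_succ]; ring
      rw [t3, ih']
      have t4 : ((M : ℚ) + 1) * (2 * l + 1) * (4 ^ N * (c l * c (M + 1))) =
          4 ^ N * (((2 * l + 1) * c l) * (2 * ((M : ℚ) + 1) * c (M + 1))) / 2 := by ring
      rw [t4, c2, ← c1]
      ring
    exact mul_left_cancel₀ (mul_ne_zero hl1 hM1) key

theorem one_add_mul_coeff (Q : ℚ[X]) (M : ℕ) :
    ((1 + X) * Q).coeff (M + 1) = Q.coeff (M + 1) + Q.coeff M := by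
  rw [add_mul, one_mul, coeff_add, coeff_X_mul]

theorem one_sub_mul_coeff (Q : ℚ[X]) (M : ℕ) :
    ((1 - X) * Q).coeff (M + 1) = Q.coeff (M + 1) - Q.coeff M := by
  rw [sub_mul, one_mul, coeff_sub, coeff_X_mul]

theorem pp_succ_left (p q : ℕ) : pp (p + 1) q = (1 + X) * pp p q := by unfold pp; ring

theorem pp_succ_right (p q : ℕ) : pp p (q + 1) = (1 - X) * pp p q := by unfold pp; ring

/-- the two middle coefficients, odd degree, even first index -/
theorem near_odd (M l : ℕ) (hl : l ≤ M) :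
    (pp (2 * l + 1) (2 * M - 2 * l)).coeff (M + 1) =
      (pp (2 * (l + 1)) (2 * (M + 1) - 2 * (l + 1))).coeff (M + 1) / 2 ∧
    (pp (2 * l + 1) (2 * M - 2 * l)).coeff M =
      (pp (2 * (l + 1)) (2 * (M + 1) - 2 * (l + 1))).coeff (M + 1) / 2 := by
  have h1 : pp (2 * (l + 1)) (2 * (M + 1) - 2 * (l + 1)) =
      (1 + X) * pp (2 * l + 1) (2 * M - 2 * l) := by
    rw [← pp_succ_left]
    congr 1
    omega
  have h2 : (pp (2 * l + 1) (2 * (M + 1) - 2 * l - 1)).coeff (M + 1) = 0 :=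
    mid_odd (M + 1) l (by omega)
  have h3 : pp (2 * l + 1) (2 * (M + 1) - 2 * l - 1) =
      (1 - X) * pp (2 * l + 1) (2 * M - 2 * l) := by
    rw [← pp_succ_right]
    congr 1
    omega
  rw [h3, one_sub_mul_coeff] at h2
  rw [h1, one_add_mul_coeff]
  constructor <;> linarith

/-- the two middle coefficients, odd degree, odd first index -/
theorem near_even (M l : ℕ) (hl : l ≤ M) :
    (pp (2 * l) (2 * M + 1 - 2 * l)).coeff (M + 1) =
      (pp (2 * l) (2 * (M + 1) - 2 * l)).coeff (M + 1) / 2 ∧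
    (pp (2 * l) (2 * M + 1 - 2 * l)).coeff M =
      - ((pp (2 * l) (2 * (M + 1) - 2 * l)).coeff (M + 1) / 2) := by
  have h1 : pp (2 * l) (2 * (M + 1) - 2 * l) =
      (1 - X) * pp (2 * l) (2 * M + 1 - 2 * l) := by
    rw [← pp_succ_right]
    congr 1
    omega
  have h2 : (pp (2 * l + 1) (2 * (M + 1) - 2 * l - 1)).coeff (M + 1) = 0 :=
    mid_odd (M + 1) l (by omega)
  have h3 : pp (2 * l + 1) (2 * (M + 1) - 2 * l - 1) =
      (1 + X) * pp (2 * l) (2 * M + 1 - 2 * l) := by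
    rw [← pp_succ_left]
    congr 1
    omega
  rw [h3, one_add_mul_coeff] at h2
  rw [h1, one_sub_mul_coeff]
  constructor <;> linarith

end Pool.Agent.U214.Kn
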