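import Mathlib
import Pool.Agent.U214.Kn.Mid
import Pool.Agent.Helper848.AztecDet

set_option autoImplicit false

/-!
Four entries of the inverse Kasteleyn matrix of the Aztec diamond near the centre.
-/

namespace Pool.Agent.U214.Kn

open Finset Polynomial
open Pool.Agent.Helper848.AztecDet (G)

/-- the coefficients of `X^N` with respect to the products `(1 + X)^(2l) (1 - X)^(2N - 2l)` -/
noncomputable def A (N l : ℕ) : ℚ := (-1) ^ (N - l) * (N.choose l : ℚ) / 4 ^ N

theorem X_pow_expand (N : ℕ) :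
    (X : ℚ[X]) ^ N = ∑ l ∈ range (N + 1), C (A N l) * pp (2 * l) (2 * N - 2 * l) := by
  have h4 : (4 : ℚ) ^ N ≠ 0 := by positivity
  have h0 : (C ((4 : ℚ) ^ N) : ℚ[X]) ≠ 0 := by
    rw [Ne, C_eq_zero]; exact h4
  apply mul_left_cancel₀ h0
  have h1 : C ((4 : ℚ) ^ N) * (X : ℚ[X]) ^ N = ((1 + X) ^ 2 + (-(1 - X) ^ 2)) ^ N := by
    rw [map_pow, ← mul_pow]
    congr 1
    have : (C (4 : ℚ) : ℚ[X]) = 4 := rfl
    rw [this]
    ring
  rw [h1, add_pow, Finset.mul_sum]
  refine Finset.sum_congr rfl fun l hl => ?_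
  have hl' : l ≤ N := by rw [mem_range] at hl; omega
  have h2 : (C ((4 : ℚ) ^ N) : ℚ[X]) * C (A N l) = C ((-1) ^ (N - l) * (N.choose l : ℚ)) := by
    rw [← C_mul]
    congr 1
    unfold A
    field_simp
  rw [← mul_assoc, h2]
  unfold pp
  have e : 2 * N - 2 * l = 2 * (N - l) := by omega
  rw [e, pow_mul, pow_mul, neg_pow ((1 - X : ℚ[X]) ^ 2)]
  simp only [map_mul, map_pow, map_neg, map_one, map_natCast]
  ring

theorem sum_split (f : ℕ → ℚ) (a b : ℕ) (h : a ≤ b) :
    ∑ k ∈ Ico a b, f k = ∑ l ∈ Ico ((a + 1) / 2) ((b + 1) / 2), f (2 * l) +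
      ∑ l ∈ Ico (a / 2) (b / 2), f (2 * l + 1) := by
  induction b, h using Nat.le_induction with
  | base => simp
  | succ b hb ih =>
    rw [Finset.sum_Ico_succ_top hb, ih]
    rcases Nat.even_or_odd' b with ⟨j, rfl | rfl⟩
    · have e1 : (2 * j + 1 + 1) / 2 = (2 * j + 1) / 2 + 1 := by omega
      have e2 : (2 * j + 1) / 2 = 2 * j / 2 := by omega
      have e3 : (2 * j + 1) / 2 = j := by omega
      rw [e1, Finset.sum_Ico_succ_top (by omega), e3]
      have e4 : 2 * j / 2 = j := by omega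
      rw [e4]
      ring
    · have e1 : (2 * j + 1 + 1 + 1) / 2 = (2 * j + 1 + 1) / 2 := by omega
      have e2 : (2 * j + 1 + 1) / 2 = j + 1 := by omega
      have e3 : (2 * j + 1) / 2 = j := by omega
      rw [e1, e2, e3, Finset.sum_Ico_succ_top (by omega : a / 2 ≤ j)]
      ring

theorem sum_split_poly (f : ℕ → ℚ[X]) (b : ℕ) :
    ∑ k ∈ range b, f k = ∑ l ∈ range ((b + 1) / 2), f (2 * l) +
      ∑ l ∈ range (b / 2), f (2 * l + 1) := by
  induction b with
  | zero => simp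
  | succ b ih =>
    rw [Finset.sum_range_succ, ih]
    rcases Nat.even_or_odd' b with ⟨j, rfl | rfl⟩
    · have e1 : (2 * j + 1 + 1) / 2 = j + 1 := by omega
      have e3 : (2 * j + 1) / 2 = j := by omega
      have e4 : 2 * j / 2 = j := by omega
      rw [e1, e3, e4, Finset.sum_range_succ]
      ring
    · have e1 : (2 * j + 1 + 1 + 1) / 2 = j + 1 := by omega
      have e2 : (2 * j + 1 + 1) / 2 = j + 1 := by omega
      have e3 : (2 * j + 1) / 2 = j := by omega
      rw [e1, e2, e3, Finset.sum_range_succ (fun l => f (2 * l + 1)) j]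
      ring

/-- coefficients for `X^N`, `n = 2N` -/
noncomputable def γa (N k : ℕ) : ℚ := if k % 2 = 0 then A N (k / 2) else 0

/-- coefficients for `X^(M+2)`, `n = 2M + 2` -/
noncomputable def γb (M k : ℕ) : ℚ := if k % 2 = 0 then
  ((if k = 0 then 0 else A M (k / 2 - 1)) + A M (k / 2)) / 4 else - (A M (k / 2) / 2)

/-- coefficients for `X^N`, `n = 2N + 1` -/
noncomputable def γc (N k : ℕ) : ℚ := A N (k / 2) / 2

theorem γa_expand (N : ℕ) : ∑ k ∈ range (2 * N + 1),
    C (γa N k) * ((1 + X) ^ k * (1 - X) ^ (2 * N - k) : ℚ[X]) = X ^ N := by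
  rw [sum_split_poly, X_pow_expand]
  have e1 : (2 * N + 1 + 1) / 2 = N + 1 := by omega
  rw [e1]
  have h2 : ∑ l ∈ range ((2 * N + 1) / 2),
      C (γa N (2 * l + 1)) * ((1 + X) ^ (2 * l + 1) * (1 - X) ^ (2 * N - (2 * l + 1)) : ℚ[X]) = 0 := by
    refine Finset.sum_eq_zero fun l _ => ?_
    have : γa N (2 * l + 1) = 0 := by
      unfold γa
      rw [if_neg (by omega)]
    rw [this]
    simp
  rw [h2, add_zero]
  refine Finset.sum_congr rfl fun l _ => ?_
  have : γa N (2 * l) = A N l := by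
    unfold γa
    rw [if_pos (by omega)]
    congr 1
    omega
  rw [this]
  rfl

theorem γc_expand (N : ℕ) : ∑ k ∈ range (2 * N + 1 + 1),
    C (γc N k) * ((1 + X) ^ k * (1 - X) ^ (2 * N + 1 - k) : ℚ[X]) = X ^ N := by
  rw [sum_split_poly, X_pow_expand]
  have e1 : (2 * N + 1 + 1 + 1) / 2 = N + 1 := by omega
  have e2 : (2 * N + 1 + 1) / 2 = N + 1 := by omega
  rw [e1, e2, ← Finset.sum_add_distrib]
  refine Finset.sum_congr rfl fun l hl => ?_
  rw [mem_range] at hl
  have h1 : γc N (2 * l) = A N l / 2 := by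
    unfold γc
    congr 2
    omega
  have h2 : γc N (2 * l + 1) = A N l / 2 := by
    unfold γc
    congr 2
    omega
  rw [h1, h2]
  have e3 : 2 * N + 1 - 2 * l = (2 * N - 2 * l) + 1 := by omega
  have e4 : 2 * N + 1 - (2 * l + 1) = 2 * N - 2 * l := by omega
  rw [e3, e4]
  have h3 : (C (A N l) : ℚ[X]) = C (A N l / 2) * 2 := by
    have : (2 : ℚ[X]) = C 2 := rfl
    rw [this, ← C_mul]
    congr 1
    ring
  rw [h3]
  unfold pp
  ring

theorem A_top (M : ℕ) : A M (M + 1) = 0 := by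
  unfold A
  rw [Nat.choose_eq_zero_of_lt (by omega)]
  simp

theorem γb_even (M l : ℕ) : γb M (2 * l) = ((if l = 0 then 0 else A M (l - 1)) + A M l) / 4 := by
  unfold γb
  rw [if_pos (by omega)]
  have e : 2 * l / 2 = l := by omega
  rw [e]
  by_cases h : l = 0
  · simp [h]
  · rw [if_neg h, if_neg (by omega)]

theorem γb_odd (M l : ℕ) : γb M (2 * l + 1) = - (A M l / 2) := by
  unfold γb
  rw [if_neg (by omega)]
  have e : (2 * l + 1) / 2 = l := by omega
  rw [e]

theorem γb_expand (M : ℕ) : ∑ k ∈ range (2 * (M + 1) + 1),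
    C (γb M k) * ((1 + X) ^ k * (1 - X) ^ (2 * (M + 1) - k) : ℚ[X]) = X ^ (M + 1 + 1) := by
  rw [sum_split_poly]
  have e1 : (2 * (M + 1) + 1 + 1) / 2 = M + 1 + 1 := by omega
  have e2 : (2 * (M + 1) + 1) / 2 = M + 1 := by omega
  rw [e1, e2]
  have h1 : ∑ l ∈ range (M + 1 + 1),
      C (γb M (2 * l)) * ((1 + X) ^ (2 * l) * (1 - X) ^ (2 * (M + 1) - 2 * l) : ℚ[X]) =
      ∑ l ∈ range (M + 1), (C (A M l / 4) * pp (2 * l) (2 * M - 2 * l) * (1 + X) ^ 2) +
      ∑ l ∈ range (M + 1), (C (A M l / 4) * pp (2 * l) (2 * M - 2 * l) * (1 - X) ^ 2) := by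
    have h2 : ∀ l, C (γb M (2 * l)) * ((1 + X) ^ (2 * l) * (1 - X) ^ (2 * (M + 1) - 2 * l) : ℚ[X]) =
        C ((if l = 0 then 0 else A M (l - 1)) / 4) * pp (2 * l) (2 * (M + 1) - 2 * l) +
        C (A M l / 4) * pp (2 * l) (2 * (M + 1) - 2 * l) := by
      intro l
      rw [γb_even, add_div, C_add]
      unfold pp
      ring
    rw [Finset.sum_congr rfl fun l _ => h2 l, Finset.sum_add_distrib]
    congr 1
    · rw [Finset.sum_range_succ']
      simp only [if_true, zero_div, C_0, zero_mul, add_zero]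
      refine Finset.sum_congr rfl fun l hl => ?_
      rw [mem_range] at hl
      rw [if_neg (by omega)]
      have e3 : l + 1 - 1 = l := by omega
      have e4 : 2 * (M + 1) - 2 * (l + 1) = 2 * M - 2 * l := by omega
      rw [e3, e4]
      unfold pp
      ring
    · rw [Finset.sum_range_succ, A_top, zero_div, C_0, zero_mul, add_zero]
      refine Finset.sum_congr rfl fun l hl => ?_
      rw [mem_range] at hl
      have e4 : 2 * (M + 1) - 2 * l = (2 * M - 2 * l) + 2 := by omega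
      rw [e4]
      unfold pp
      ring
  rw [h1, ← Finset.sum_add_distrib, ← Finset.sum_add_distrib]
  have h3 : (X : ℚ[X]) ^ (M + 1 + 1) = X ^ M * X ^ 2 := by ring
  rw [h3, X_pow_expand, Finset.sum_mul]
  refine Finset.sum_congr rfl fun l hl => ?_
  rw [mem_range] at hl
  rw [γb_odd]
  have e5 : 2 * (M + 1) - (2 * l + 1) = (2 * M - 2 * l) + 1 := by omega
  rw [e5]
  have h4 : (C (A M l) : ℚ[X]) = C (A M l / 4) * 4 := by
    have : (4 : ℚ[X]) = C 4 := rfl
    rw [this, ← C_mul]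
    congr 1
    ring
  have h5 : (C (-(A M l / 2)) : ℚ[X]) = C (A M l / 4) * (-2) := by
    have : (-2 : ℚ[X]) = C (-2) := by rw [C_neg]; rfl
    rw [this, ← C_mul]
    congr 1
    ring
  rw [h4, h5]
  unfold pp
  ring

/-- the middle coefficients -/
noncomputable def mid (N l : ℕ) : ℚ := (pp (2 * l) (2 * N - 2 * l)).coeff N

theorem A_mid (N l : ℕ) (hl : l ≤ N) : A N l * mid N l = c l * c (N - l) := by
  have h := mid_even N l hl
  have h4 : (4 : ℚ) ^ N ≠ 0 := by positivity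
  unfold A mid
  rw [div_mul_eq_mul_div, div_eq_iff h4, h]
  ring

theorem A_mid_M (M l : ℕ) (hl : l ≤ M) :
    ((M : ℚ) + 1) * (A M l * mid (M + 1) l) = - (4 * ((M + 1 - l : ℚ) * (c l * c (M + 1 - l)))) := by
  have h := A_mid (M + 1) l (by omega)
  rw [← h]
  unfold A
  have e1 : M + 1 - l = (M - l) + 1 := by omega
  rw [e1, pow_succ, pow_succ]
  have h4 : (4 : ℚ) ^ M ≠ 0 := by positivity
  have h5 := Nat.choose_mul_succ_eq M l
  have h6 : ((M.choose l : ℚ)) * (M + 1) = ((M + 1).choose l : ℚ) * (M + 1 - l) := by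
    have h7 : ((M.choose l * (M + 1) : ℕ) : ℚ) = (((M + 1).choose l * (M + 1 - l) : ℕ) : ℚ) := by
      rw [h5]
    push_cast [Nat.cast_sub (by omega : l ≤ M + 1)] at h7
    exact h7
  field_simp
  linear_combination (mid (M + 1) l) * h6

theorem A_mid_M' (M l : ℕ) (hl : l ≤ M) :
    ((M : ℚ) + 1) * (A M l * mid (M + 1) (l + 1)) =
      4 * (((l : ℚ) + 1) * (c (l + 1) * c (M + 1 - (l + 1)))) := by
  have h := A_mid (M + 1) (l + 1) (by omega)
  rw [← h]
  unfold A
  have e1 : M + 1 - (l + 1) = M - l := by omega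
  rw [e1, pow_succ]
  have h4 : (4 : ℚ) ^ M ≠ 0 := by positivity
  have h5 := Nat.add_one_mul_choose_eq M l
  have h6 : ((M : ℚ) + 1) * (M.choose l : ℚ) = ((M + 1).choose (l + 1) : ℚ) * (l + 1) := by
    exact_mod_cast h5
  field_simp
  linear_combination (mid (M + 1) (l + 1)) * h6

theorem A_mid_shift (N j : ℕ) (hj : j < N) :
    A N (j + 1) * mid N j = - ((((N - j : ℕ) : ℚ) / ((j : ℚ) + 1)) * (c j * c (N - j))) := by
  have h := A_mid N j (by omega)
  rw [← h]
  unfold A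
  have e1 : N - j = (N - (j + 1)) + 1 := by omega
  have h5 := Nat.choose_succ_right_eq N j
  have h6 : (N.choose (j + 1) : ℚ) * (j + 1) = (N.choose j : ℚ) * ((N - j : ℕ) : ℚ) := by
    exact_mod_cast h5
  have hj1 : ((j : ℚ) + 1) ≠ 0 := by positivity
  have h4 : (4 : ℚ) ^ N ≠ 0 := by positivity
  have h7 : ((-1 : ℚ) ^ (N - j)) = - ((-1) ^ (N - (j + 1))) := by
    rw [e1, pow_succ]; ring
  rw [h7]
  field_simp
  linear_combination (mid N j) * h6

end Pool.Agent.U214.Kn
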