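import Mathlib
import Pool.Agent.U214.Kn.Green

set_option autoImplicit false

/-!
Evaluation of the entries of the inverse Kasteleyn matrix.
-/

namespace Pool.Agent.U214.Kn

open Finset Polynomial
open Pool.Agent.Helper848.AztecDet (G)

theorem G_even_coeff (M : ℕ) (γ : ℕ → ℚ) (i : ℕ) :
    (G (2 * (M + 1)) γ (M + 1 + 1) (M + 1)).coeff i =
      ∑ k ∈ Ico (M + 1 + 1) (2 * (M + 1) + 1), γ k * (pp (k - 1) (2 * (M + 1) - k)).coeff i := by
  unfold G
  rw [if_pos (by omega)]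
  have e : M + 1 + 1 - 1 - (M + 1) = 0 := by omega
  rw [e, pow_zero, one_mul, finsetSum_coeff]
  refine Finset.sum_congr rfl fun k hk => ?_
  rw [mem_Ico] at hk
  rw [coeff_C_mul]
  have e1 : k + (M + 1) - (M + 1 + 1) = k - 1 := by omega
  have e2 : 2 * (M + 1) + (M + 1 + 1) - 1 - (M + 1) - k = 2 * (M + 1) - k := by omega
  rw [e1, e2]
  rfl

theorem G_even_top (M : ℕ) (γ : ℕ → ℚ) :
    (G (2 * (M + 1)) γ (M + 1 + 1) (M + 1)).coeff (M + 1) =
      ∑ l ∈ Ico ((M + 3) / 2) (M + 2), γ (2 * l) * (mid (M + 1) l / 2) +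
      ∑ l ∈ Ico ((M + 2) / 2) (M + 1), γ (2 * l + 1) * (mid (M + 1) l / 2) := by
  rw [G_even_coeff, sum_split _ _ _ (by omega)]
  have e1 : (M + 1 + 1 + 1) / 2 = (M + 3) / 2 := by omega
  have e2 : (2 * (M + 1) + 1 + 1) / 2 = M + 2 := by omega
  have e3 : (2 * (M + 1) + 1) / 2 = M + 1 := by omega
  rw [e1, e2, e3]
  congr 1
  · refine Finset.sum_congr rfl fun l hl => ?_
    rw [mem_Ico] at hl
    obtain ⟨l', rfl⟩ : ∃ l', l = l' + 1 := ⟨l - 1, by omega⟩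
    have e4 : 2 * (l' + 1) - 1 = 2 * l' + 1 := by omega
    have e5 : 2 * (M + 1) - 2 * (l' + 1) = 2 * M - 2 * l' := by omega
    rw [e4]
    nth_rewrite 1 [e5]
    rw [(near_odd M l' (by omega)).1]
    rfl
  · refine Finset.sum_congr rfl fun l hl => ?_
    rw [mem_Ico] at hl
    have e4 : 2 * l + 1 - 1 = 2 * l := by omega
    have e5 : 2 * (M + 1) - (2 * l + 1) = 2 * M + 1 - 2 * l := by omega
    rw [e4, e5, (near_even M l (by omega)).1]
    rfl

theorem G_even_bot (M : ℕ) (γ : ℕ → ℚ) :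
    (G (2 * (M + 1)) γ (M + 1 + 1) (M + 1)).coeff M =
      ∑ l ∈ Ico ((M + 3) / 2) (M + 2), γ (2 * l) * (mid (M + 1) l / 2) -
      ∑ l ∈ Ico ((M + 2) / 2) (M + 1), γ (2 * l + 1) * (mid (M + 1) l / 2) := by
  rw [G_even_coeff, sum_split _ _ _ (by omega)]
  have e1 : (M + 1 + 1 + 1) / 2 = (M + 3) / 2 := by omega
  have e2 : (2 * (M + 1) + 1 + 1) / 2 = M + 2 := by omega
  have e3 : (2 * (M + 1) + 1) / 2 = M + 1 := by omega
  rw [e1, e2, e3, sub_eq_add_neg, ← Finset.sum_neg_distrib]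
  congr 1
  · refine Finset.sum_congr rfl fun l hl => ?_
    rw [mem_Ico] at hl
    obtain ⟨l', rfl⟩ : ∃ l', l = l' + 1 := ⟨l - 1, by omega⟩
    have e4 : 2 * (l' + 1) - 1 = 2 * l' + 1 := by omega
    have e5 : 2 * (M + 1) - 2 * (l' + 1) = 2 * M - 2 * l' := by omega
    rw [e4]
    nth_rewrite 1 [e5]
    rw [(near_odd M l' (by omega)).2]
    rfl
  · refine Finset.sum_congr rfl fun l hl => ?_
    rw [mem_Ico] at hl
    have e4 : 2 * l + 1 - 1 = 2 * l := by omega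
    have e5 : 2 * (M + 1) - (2 * l + 1) = 2 * M + 1 - 2 * l := by omega
    rw [e4, e5, (near_even M l (by omega)).2]
    unfold mid
    ring

theorem γa_even_mid (N l : ℕ) (hl : l ≤ N) : γa N (2 * l) * mid N l = c l * c (N - l) := by
  have : γa N (2 * l) = A N l := by
    unfold γa
    rw [if_pos (by omega)]
    congr 1
    omega
  rw [this, A_mid N l hl]

theorem γa_odd (N l : ℕ) : γa N (2 * l + 1) = 0 := by
  unfold γa
  rw [if_neg (by omega)]

theorem γb_even_mid (M l : ℕ) (h1 : 1 ≤ l) (hl : l ≤ M + 1) :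
    ((M : ℚ) + 1) * (γb M (2 * l) * mid (M + 1) l) =
      (2 * l - (M + 1)) * (c l * c (M + 1 - l)) := by
  rw [γb_even, if_neg (by omega)]
  obtain ⟨k, rfl⟩ : ∃ k, l = k + 1 := ⟨l - 1, by omega⟩
  have h2 := A_mid_M' M k (by omega)
  have e : k + 1 - 1 = k := by omega
  rw [e]
  rcases Nat.lt_or_ge k M with h | h
  · have h3 := A_mid_M M (k + 1) (by omega)
    push_cast at h2 h3 ⊢
    linear_combination h2 / 4 + h3 / 4
  · have hk : k = M := by omega
    subst hk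
    rw [A_top]
    push_cast at h2 ⊢
    linear_combination h2 / 4

theorem γb_odd_mid (M l : ℕ) (hl : l ≤ M) :
    ((M : ℚ) + 1) * (γb M (2 * l + 1) * mid (M + 1) l) =
      2 * (M + 1 - l) * (c l * c (M + 1 - l)) := by
  rw [γb_odd]
  have h3 := A_mid_M M l hl
  linear_combination - h3 / 2

/-- sum over the upper half -/
noncomputable def S (a N : ℕ) : ℚ := ∑ l ∈ Ico a (N + 1), c l * c (N - l)

theorem Ha (M : ℕ) : (G (2 * (M + 1)) (γa (M + 1)) (M + 1 + 1) (M + 1)).coeff (M + 1) =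
      S ((M + 3) / 2) (M + 1) / 2 ∧
    (G (2 * (M + 1)) (γa (M + 1)) (M + 1 + 1) (M + 1)).coeff M =
      S ((M + 3) / 2) (M + 1) / 2 := by
  rw [G_even_top, G_even_bot]
  have h1 : ∑ l ∈ Ico ((M + 2) / 2) (M + 1), γa (M + 1) (2 * l + 1) * (mid (M + 1) l / 2) = 0 := by
    refine Finset.sum_eq_zero fun l _ => ?_
    rw [γa_odd, zero_mul]
  have h2 : ∑ l ∈ Ico ((M + 3) / 2) (M + 2), γa (M + 1) (2 * l) * (mid (M + 1) l / 2) =
      S ((M + 3) / 2) (M + 1) / 2 := by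
    unfold S
    rw [Finset.sum_div]
    refine Finset.sum_congr rfl fun l hl => ?_
    rw [mem_Ico] at hl
    rw [← γa_even_mid (M + 1) l (by omega)]
    ring
  rw [h1, h2, add_zero, sub_zero]
  exact ⟨rfl, rfl⟩

theorem Hb_aux1 (M : ℕ) : ((M : ℚ) + 1) *
    ∑ l ∈ Ico ((M + 3) / 2) (M + 2), γb M (2 * l) * (mid (M + 1) l / 2) =
    ∑ l ∈ Ico ((M + 2) / 2) (M + 2), (2 * (l : ℚ) - (M + 1)) * (c l * c (M + 1 - l)) / 2 := by
  have h : ((M : ℚ) + 1) *
    ∑ l ∈ Ico ((M + 3) / 2) (M + 2), γb M (2 * l) * (mid (M + 1) l / 2) =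
    ∑ l ∈ Ico ((M + 3) / 2) (M + 2), (2 * (l : ℚ) - (M + 1)) * (c l * c (M + 1 - l)) / 2 := by
    rw [Finset.mul_sum]
    refine Finset.sum_congr rfl fun l hl => ?_
    rw [mem_Ico] at hl
    rw [← γb_even_mid M l (by omega) (by omega)]
    ring
  rw [h]
  rcases Nat.even_or_odd' M with ⟨j, rfl | rfl⟩
  · have e1 : (2 * j + 3) / 2 = (2 * j + 2) / 2 := by omega
    rw [e1]
  · have e1 : (2 * j + 1 + 3) / 2 = (2 * j + 1 + 2) / 2 + 1 := by omega
    rw [e1, Finset.sum_eq_sum_Ico_succ_bot (by omega : (2 * j + 1 + 2) / 2 < 2 * j + 1 + 2)]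
    have e2 : (2 * j + 1 + 2) / 2 = j + 1 := by omega
    rw [e2]
    push_cast
    ring

theorem Hb_aux2 (M : ℕ) : ((M : ℚ) + 1) *
    ∑ l ∈ Ico ((M + 2) / 2) (M + 1), γb M (2 * l + 1) * (mid (M + 1) l / 2) =
    ∑ l ∈ Ico ((M + 2) / 2) (M + 2), ((M : ℚ) + 1 - l) * (c l * c (M + 1 - l)) := by
  rw [Finset.sum_Ico_succ_top (by omega : (M + 2) / 2 ≤ M + 1), Finset.mul_sum]
  have e : ((M : ℚ) + 1 - ((M + 1 : ℕ) : ℚ)) = 0 := by push_cast; ring
  rw [e, zero_mul, add_zero]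
  refine Finset.sum_congr rfl fun l hl => ?_
  rw [mem_Ico] at hl
  have := γb_odd_mid M l (by omega)
  linear_combination this / 2

theorem Hb (M : ℕ) : (G (2 * (M + 1)) (γb M) (M + 1 + 1) (M + 1)).coeff (M + 1) =
      S ((M + 2) / 2) (M + 1) / 2 ∧
    ((M : ℚ) + 1) * ((G (2 * (M + 1)) (γb M) (M + 1 + 1) (M + 1)).coeff M +
      S ((M + 2) / 2) (M + 1) / 2) =
      2 * ((((M + 2) / 2 : ℕ) : ℚ) * c ((M + 2) / 2)) *
        (((M + 2 - (M + 2) / 2 : ℕ) : ℚ) * c (M + 2 - (M + 2) / 2)) := by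
  have h0 : ((M : ℚ) + 1) ≠ 0 := by positivity
  have h1 := Hb_aux1 M
  have h2 := Hb_aux2 M
  have h3 := tele1 (M + 1) ((M + 2) / 2) (by omega)
  push_cast at h3
  rw [G_even_top, G_even_bot]
  set T1 := ∑ l ∈ Ico ((M + 3) / 2) (M + 2), γb M (2 * l) * (mid (M + 1) l / 2)
  set T2 := ∑ l ∈ Ico ((M + 2) / 2) (M + 1), γb M (2 * l + 1) * (mid (M + 1) l / 2)
  have h4 : ∑ l ∈ Ico ((M + 2) / 2) (M + 2), (2 * (l : ℚ) - (M + 1)) * (c l * c (M + 1 - l)) / 2 =
      (∑ l ∈ Ico ((M + 2) / 2) (M + 1 + 1), (2 * (l : ℚ) - (M + 1)) * (c l * c (M + 1 - l))) / 2 := by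
    rw [Finset.sum_div]
  have h5 : ∑ l ∈ Ico ((M + 2) / 2) (M + 2), ((M : ℚ) + 1 - l) * (c l * c (M + 1 - l)) =
      ((M : ℚ) + 1) / 2 * S ((M + 2) / 2) (M + 1) -
      (∑ l ∈ Ico ((M + 2) / 2) (M + 1 + 1), (2 * (l : ℚ) - (M + 1)) * (c l * c (M + 1 - l))) / 2 := by
    unfold S
    rw [Finset.sum_div, Finset.mul_sum, ← Finset.sum_sub_distrib]
    refine Finset.sum_congr rfl fun l _ => ?_
    ring
  rw [h4] at h1
  rw [h5] at h2
  constructor
  · apply mul_left_cancel₀ h0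
    rw [mul_add, h1, h2]
    ring
  · have e : M + 1 + 1 - (M + 2) / 2 = M + 2 - (M + 2) / 2 := by omega
    rw [e] at h3
    rw [← h3]
    linear_combination h1 - h2

/-! ### odd order -/

theorem coeff_mid_odd (N k : ℕ) (hk : k ≤ 2 * N) (h : k % 2 = 1) :
    (pp k (2 * N - k)).coeff N = 0 := by
  obtain ⟨l, rfl⟩ : ∃ l, k = 2 * l + 1 := ⟨k / 2, by omega⟩
  have e : 2 * N - (2 * l + 1) = 2 * N - 2 * l - 1 := by omega
  rw [e]
  exact mid_odd N l (by omega)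

theorem γc_even_mid (N l : ℕ) (hl : l ≤ N) : γc N (2 * l) * mid N l = c l * c (N - l) / 2 := by
  have : γc N (2 * l) = A N l / 2 := by
    unfold γc
    congr 2
    omega
  rw [this, ← A_mid N l hl]
  ring

theorem γc_odd_mid (N l : ℕ) (hl : l ≤ N) : γc N (2 * l + 1) * mid N l = c l * c (N - l) / 2 := by
  have : γc N (2 * l + 1) = A N l / 2 := by
    unfold γc
    congr 2
    omega
  rw [this, ← A_mid N l hl]
  ring

/-- source `c`, evaluation at `d` -/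
theorem Hc_d (N : ℕ) : (G (2 * N + 1) (γc N) (N + 1) (N + 1)).coeff N =
    (1 - S ((N + 2) / 2) N) / 2 := by
  unfold G
  rw [if_neg (by omega)]
  have e : N + 1 - (N + 1) = 0 := by omega
  rw [e, pow_zero, one_mul, finsetSum_coeff]
  have h1 : ∀ k ∈ range (N + 1), (C (γc N k) * ((1 + X) ^ (k + 0) *
      (1 - X) ^ (2 * N + 1 - 1 - k - 0)) : ℚ[X]).coeff N = γc N k * (pp k (2 * N - k)).coeff N := by
    intro k _
    rw [coeff_C_mul]
    rfl
  rw [Finset.sum_congr rfl h1, Finset.range_eq_Ico, sum_split _ _ _ (by omega)]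
  have e1 : (0 + 1) / 2 = 0 := by norm_num
  have e3 : (N + 1 + 1) / 2 = (N + 2) / 2 := by omega
  rw [e1, e3]
  have h2 : ∑ l ∈ Ico 0 ((N + 1) / 2), γc N (2 * l + 1) *
      (pp (2 * l + 1) (2 * N - (2 * l + 1))).coeff N = 0 := by
    refine Finset.sum_eq_zero fun l hl => ?_
    rw [mem_Ico] at hl
    rw [coeff_mid_odd N (2 * l + 1) (by omega) (by omega), mul_zero]
  rw [h2, add_zero]
  have h3 : ∑ l ∈ Ico 0 ((N + 2) / 2), γc N (2 * l) * (pp (2 * l) (2 * N - 2 * l)).coeff N =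
      (∑ l ∈ Ico 0 ((N + 2) / 2), c l * c (N - l)) / 2 := by
    rw [Finset.sum_div]
    refine Finset.sum_congr rfl fun l hl => ?_
    rw [mem_Ico] at hl
    exact γc_even_mid N l (by omega)
  rw [h3]
  congr 1
  have h4 := sum_c N
  rw [← Finset.sum_range_add_sum_Ico _ (by omega : (N + 2) / 2 ≤ N + 1)] at h4
  unfold S
  rw [← Finset.range_eq_Ico]
  linarith

/-- a common form of three of the entries -/
theorem G_odd_aux (N a : ℕ) (ha : a ≤ 2 * N + 2) (ha1 : 1 ≤ a) :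
    ∑ k ∈ Ico a (2 * N + 1 + 1), γc N k * (pp (k - 1) (2 * N + 1 - k)).coeff N =
    S (a / 2) N / 2 := by
  rw [sum_split _ _ _ (by omega)]
  have h2 : ∑ l ∈ Ico ((a + 1) / 2) ((2 * N + 1 + 1 + 1) / 2), γc N (2 * l) *
      (pp (2 * l - 1) (2 * N + 1 - 2 * l)).coeff N = 0 := by
    refine Finset.sum_eq_zero fun l hl => ?_
    rw [mem_Ico] at hl
    have e : 2 * N + 1 - 2 * l = 2 * N - (2 * l - 1) := by omega
    rw [e, coeff_mid_odd N (2 * l - 1) (by omega) (by omega), mul_zero]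
  rw [h2, zero_add]
  have e3 : (2 * N + 1 + 1) / 2 = N + 1 := by omega
  rw [e3]
  unfold S
  rw [Finset.sum_div]
  refine Finset.sum_congr rfl fun l hl => ?_
  rw [mem_Ico] at hl
  have e4 : 2 * l + 1 - 1 = 2 * l := by omega
  have e5 : 2 * N + 1 - (2 * l + 1) = 2 * N - 2 * l := by omega
  rw [e4, e5]
  exact γc_odd_mid N l (by omega)

/-- source `c`, evaluation at `a` -/
theorem Hc_a (N : ℕ) : (G (2 * N + 1) (γc N) (N + 1) N).coeff N = S ((N + 1) / 2) N / 2 := by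
  rw [← G_odd_aux N (N + 1) (by omega) (by omega)]
  unfold G
  rw [if_pos (by omega)]
  have e : N + 1 - 1 - N = 0 := by omega
  rw [e, pow_zero, one_mul, finsetSum_coeff]
  refine Finset.sum_congr rfl fun k hk => ?_
  rw [mem_Ico] at hk
  rw [coeff_C_mul]
  have e1 : k + N - (N + 1) = k - 1 := by omega
  have e2 : 2 * N + 1 + (N + 1) - 1 - N - k = 2 * N + 1 - k := by omega
  rw [e1, e2]
  rfl

/-- source `b`, evaluation at `d` -/
theorem Hd_d (N : ℕ) (hN : 1 ≤ N) :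
    (G (2 * N + 1) (γc N) (N + 2) (N + 1)).coeff N = S ((N + 2) / 2) N / 2 := by
  rw [← G_odd_aux N (N + 2) (by omega) (by omega)]
  unfold G
  rw [if_pos (by omega)]
  have e : N + 2 - 1 - (N + 1) = 0 := by omega
  rw [e, pow_zero, one_mul, finsetSum_coeff]
  refine Finset.sum_congr rfl fun k hk => ?_
  rw [mem_Ico] at hk
  rw [coeff_C_mul]
  have e1 : k + (N + 1) - (N + 2) = k - 1 := by omega
  have e2 : 2 * N + 1 + (N + 2) - 1 - (N + 1) - k = 2 * N + 1 - k := by omega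
  rw [e1, e2]
  rfl

/-- source `b`, evaluation at `a` -/
theorem Hd_a (N : ℕ) (hN : 1 ≤ N) :
    (G (2 * N + 1) (γc N) (N + 2) N).coeff N =
      c ((N + 1) / 2) * (((N - (N + 1) / 2 : ℕ) : ℚ) * c (N - (N + 1) / 2)) -
        S ((N + 1) / 2 + 1) N / 2 := by
  have h0 := tele2 N ((N + 1) / 2) (by omega)
  have h1 : (G (2 * N + 1) (γc N) (N + 2) N).coeff N =
      - ∑ k ∈ Ico (N + 2) (2 * N + 1 + 1), γc N k * (pp (k - 2) (2 * N + 2 - k)).coeff N := by
    unfold G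
    rw [if_pos (by omega)]
    have e : N + 2 - 1 - N = 1 := by omega
    rw [e, pow_one, neg_mul, one_mul, coeff_neg, finsetSum_coeff]
    congr 1
    refine Finset.sum_congr rfl fun k hk => ?_
    rw [mem_Ico] at hk
    rw [coeff_C_mul]
    have e1 : k + N - (N + 2) = k - 2 := by omega
    have e2 : 2 * N + 1 + (N + 2) - 1 - N - k = 2 * N + 2 - k := by omega
    rw [e1, e2]
    rfl
  rw [h1, sum_split _ _ _ (by omega)]
  have h2 : ∑ l ∈ Ico ((N + 2) / 2) ((2 * N + 1 + 1) / 2), γc N (2 * l + 1) *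
      (pp (2 * l + 1 - 2) (2 * N + 2 - (2 * l + 1))).coeff N = 0 := by
    refine Finset.sum_eq_zero fun l hl => ?_
    rw [mem_Ico] at hl
    have e : 2 * N + 2 - (2 * l + 1) = 2 * N - (2 * l + 1 - 2) := by omega
    rw [e, coeff_mid_odd N (2 * l + 1 - 2) (by omega) (by omega), mul_zero]
  rw [h2, add_zero]
  have e1 : (N + 2 + 1) / 2 = (N + 1) / 2 + 1 := by omega
  have e2 : (2 * N + 1 + 1 + 1) / 2 = N + 1 := by omega
  rw [e1, e2, ← Finset.sum_Ico_add' (fun l => γc N (2 * l) *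
    (pp (2 * l - 2) (2 * N + 2 - 2 * l)).coeff N) ((N + 1) / 2) N 1]
  have h3 : ∑ j ∈ Ico ((N + 1) / 2) N, γc N (2 * (j + 1)) *
      (pp (2 * (j + 1) - 2) (2 * N + 2 - 2 * (j + 1))).coeff N =
      - ((∑ j ∈ Ico ((N + 1) / 2) (N + 1),
        (((N - j : ℕ) : ℚ) / ((j : ℚ) + 1)) * (c j * c (N - j))) / 2) := by
    rw [Finset.sum_Ico_succ_top (by omega : (N + 1) / 2 ≤ N)]
    have e3 : ((N - N : ℕ) : ℚ) = 0 := by simp
    rw [e3, zero_div, zero_mul, add_zero, Finset.sum_div, ← Finset.sum_neg_distrib]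
    refine Finset.sum_congr rfl fun j hj => ?_
    rw [mem_Ico] at hj
    have e4 : 2 * (j + 1) - 2 = 2 * j := by omega
    have e5 : 2 * N + 2 - 2 * (j + 1) = 2 * N - 2 * j := by omega
    rw [e4, e5]
    have h4 := A_mid_shift N j (by omega)
    have h5 : γc N (2 * (j + 1)) = A N (j + 1) / 2 := by
      unfold γc
      congr 2
      omega
    rw [h5]
    unfold mid at h4
    linear_combination h4 / 2
  rw [h3, h0]
  unfold S
  ring

end Pool.Agent.U214.Kn
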