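import Mathlib
import Pool.Agent.Helper848.Kast
import Pool.Agent.Helper848.AztecDet

set_option autoImplicit false

/-!
The Aztec diamond with two central cells removed, and its Kasteleyn signs.
-/

namespace Pool.Agent.U214.Kn

open Finset Pool.Agent.Helper848
open Pool.Agent.Helper848.AztecDet (E O K0)

/-- The Aztec diamond of order `n`; the cell `(x, y)` is the unit square with the centre
`(x + 1/2, y + 1/2)`. -/
noncomputable def aztec (n : ℕ) : Finset (ℤ × ℤ) :=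
  (Icc (-(n : ℤ)) n ×ˢ Icc (-(n : ℤ)) n).filter fun p => |2 * p.1 + 1| + |2 * p.2 + 1| ≤ 2 * n

/-- The Aztec diamond without the cells with the centres `(-1/2, -1/2)` and `(1/2, 3/2)`. -/
noncomputable def region (n : ℕ) : Finset (ℤ × ℤ) := aztec n \ {(-1, -1), (0, 1)}

theorem mem_aztec (n : ℕ) (p : ℤ × ℤ) : p ∈ aztec n ↔
    -(n : ℤ) ≤ p.1 + p.2 + 1 ∧ p.1 + p.2 + 1 ≤ n ∧ -(n : ℤ) ≤ p.2 - p.1 ∧ p.2 - p.1 ≤ n := by
  unfold aztec
  rw [mem_filter, mem_product, mem_Icc, mem_Icc]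
  rcases abs_cases (2 * p.1 + 1) with ⟨h1, h2⟩ | ⟨h1, h2⟩ <;>
  rcases abs_cases (2 * p.2 + 1) with ⟨h3, h4⟩ | ⟨h3, h4⟩ <;>
  rw [h1, h3] <;> constructor <;> intro h <;> omega

theorem mem_region (n : ℕ) (p : ℤ × ℤ) : p ∈ region n ↔
    (-(n : ℤ) ≤ p.1 + p.2 + 1 ∧ p.1 + p.2 + 1 ≤ n ∧ -(n : ℤ) ≤ p.2 - p.1 ∧ p.2 - p.1 ≤ n) ∧
      ¬ (p.1 = -1 ∧ p.2 = -1) ∧ ¬ (p.1 = 0 ∧ p.2 = 1) := by
  unfold region
  rw [mem_sdiff, mem_aztec, mem_insert, mem_singleton, not_or, Prod.ext_iff, Prod.ext_iff]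

theorem above_region (n : ℕ) (w : ℤ × ℤ) (hw : w ∈ region n) (he : (w.2 - w.1) % 2 = 0) :
    ∃ K : ℕ, 2 * (K : ℤ) ≤ n - (w.1 + w.2 + 1) ∧ (n : ℤ) - (w.1 + w.2 + 1) < 2 * K + 2 ∧
      above (region n) w + (if w.2 - w.1 = 0 ∧ w.1 < -1 then 1 else 0) = K := by
  obtain ⟨x, y⟩ := w
  rw [mem_region] at hw
  simp only at hw he ⊢
  refine ⟨((n - (x + y + 1)) / 2).toNat, by omega, by omega, ?_⟩
  set K := ((n - (x + y + 1)) / 2).toNat with hK
  have himg : ∀ q : ℤ × ℤ, q ∈ (range K).image (fun k : ℕ => (x + 1 + (k : ℤ), y + 1 + (k : ℤ))) ↔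
      q.2 - q.1 = y - x ∧ x < q.1 ∧ q.1 + q.2 + 1 ≤ n := by
    intro q
    obtain ⟨a, b⟩ := q
    simp only [mem_image, mem_range, Prod.mk.injEq]
    constructor
    · rintro ⟨k, hk, h1, h2⟩
      omega
    · rintro ⟨h1, h2, h3⟩
      exact ⟨(a - x - 1).toNat, by omega, by omega, by omega⟩
  have hcard : ((range K).image (fun k : ℕ => (x + 1 + (k : ℤ), y + 1 + (k : ℤ)))).card = K := by
    rw [card_image_of_injective, card_range]
    intro a b h
    simp only [Prod.mk.injEq] at h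
    omega
  by_cases hh : y - x = 0 ∧ x < -1
  · rw [if_pos hh]
    unfold above
    have h1 : insert ((-1 : ℤ), (-1 : ℤ))
        ((region n).filter fun q => q.2 - q.1 = y - x ∧ x < q.1) =
        (range K).image (fun k : ℕ => (x + 1 + (k : ℤ), y + 1 + (k : ℤ))) := by
      ext ⟨a, b⟩
      rw [himg, mem_insert, mem_filter, mem_region]
      simp only [Prod.mk.injEq]
      omega
    have h2 : ((-1 : ℤ), (-1 : ℤ)) ∉ ((region n).filter fun q => q.2 - q.1 = y - x ∧ x < q.1) := by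
      rw [mem_filter, mem_region]
      simp
    have h3 := card_insert_of_notMem h2
    rw [h1, hcard] at h3
    simp only
    omega
  · rw [if_neg hh]
    unfold above
    have h1 : ((region n).filter fun q => q.2 - q.1 = y - x ∧ x < q.1) =
        (range K).image (fun k : ℕ => (x + 1 + (k : ℤ), y + 1 + (k : ℤ))) := by
      ext ⟨a, b⟩
      rw [himg, mem_filter, mem_region]
      simp only
      omega
    simp only
    rw [h1, hcard, add_zero]

theorem below_region (n : ℕ) (w : ℤ × ℤ) (hw : w ∈ region n) (he : (w.2 - w.1) % 2 = 1) :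
    ∃ K : ℕ, 2 * (K : ℤ) ≤ n + (w.1 + w.2 + 1) ∧ (n : ℤ) + (w.1 + w.2 + 1) < 2 * K + 2 ∧
      below (region n) w + (if w.2 - w.1 = 1 ∧ 0 < w.1 then 1 else 0) = K := by
  obtain ⟨x, y⟩ := w
  rw [mem_region] at hw
  simp only at hw he ⊢
  refine ⟨((n + (x + y + 1)) / 2).toNat, by omega, by omega, ?_⟩
  set K := ((n + (x + y + 1)) / 2).toNat with hK
  have himg : ∀ q : ℤ × ℤ, q ∈ (range K).image (fun k : ℕ => (x - 1 - (k : ℤ), y - 1 - (k : ℤ))) ↔
      q.2 - q.1 = y - x ∧ q.1 < x ∧ -(n : ℤ) ≤ q.1 + q.2 + 1 := by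
    intro q
    obtain ⟨a, b⟩ := q
    simp only [mem_image, mem_range, Prod.mk.injEq]
    constructor
    · rintro ⟨k, hk, h1, h2⟩
      omega
    · rintro ⟨h1, h2, h3⟩
      exact ⟨(x - 1 - a).toNat, by omega, by omega, by omega⟩
  have hcard : ((range K).image (fun k : ℕ => (x - 1 - (k : ℤ), y - 1 - (k : ℤ)))).card = K := by
    rw [card_image_of_injective, card_range]
    intro a b h
    simp only [Prod.mk.injEq] at h
    omega
  by_cases hh : y - x = 1 ∧ 0 < x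
  · rw [if_pos hh]
    unfold below
    have h1 : insert ((0 : ℤ), (1 : ℤ))
        ((region n).filter fun q => q.2 - q.1 = y - x ∧ q.1 < x) =
        (range K).image (fun k : ℕ => (x - 1 - (k : ℤ), y - 1 - (k : ℤ))) := by
      ext ⟨a, b⟩
      rw [himg, mem_insert, mem_filter, mem_region]
      simp only [Prod.mk.injEq]
      omega
    have h2 : ((0 : ℤ), (1 : ℤ)) ∉ ((region n).filter fun q => q.2 - q.1 = y - x ∧ q.1 < x) := by
      rw [mem_filter, mem_region]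
      simp
    have h3 := card_insert_of_notMem h2
    rw [h1, hcard] at h3
    simp only
    omega
  · rw [if_neg hh]
    unfold below
    have h1 : ((region n).filter fun q => q.2 - q.1 = y - x ∧ q.1 < x) =
        (range K).image (fun k : ℕ => (x - 1 - (k : ℤ), y - 1 - (k : ℤ))) := by
      ext ⟨a, b⟩
      rw [himg, mem_filter, mem_region]
      simp only
      omega
    simp only
    rw [h1, hcard, add_zero]

/-- a sign -/
def sgn (z : ℤ) : ℤˣ := if z % 2 = 0 then 1 else -1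

theorem npow_eq (k : ℕ) : (-1 : ℤ) ^ k = if k % 2 = 0 then 1 else -1 := by
  split_ifs with h
  · exact Even.neg_one_pow (Nat.even_iff.2 h)
  · exact Odd.neg_one_pow (Nat.odd_iff.2 (by omega))

theorem sgn_val (z : ℤ) : ((sgn z : ℤˣ) : ℤ) = if z % 2 = 0 then 1 else -1 := by
  unfold sgn
  split_ifs <;> simp

/-- the gauge function on the cells of the colour of `(-1, 0)`, `(0, 1)` -/
def gb (n : ℕ) (b : ℤ × ℤ) : ℤˣ := sgn (b.2 + n + 1 + if 1 ≤ b.2 - b.1 then 1 else 0)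

/-- the gauge function on the cells of the colour of `(-1, -1)`, `(0, 0)` -/
def gw (w : ℤ × ℤ) : ℤˣ := sgn (w.2 + if 1 ≤ w.2 - w.1 then 1 else 0)

theorem sgn3 (E1 E2 : ℤ) (k : ℕ) : (if E1 % 2 = 0 then (1 : ℤ) else -1) *
    (if E2 % 2 = 0 then 1 else -1) * (if k % 2 = 0 then 1 else -1) =
    if (E1 + E2 + k) % 2 = 0 then 1 else -1 := by
  split_ifs <;> omega

theorem sgn2 (E1 E2 : ℤ) : (if E1 % 2 = 0 then (1 : ℤ) else -1) *
    (if E2 % 2 = 0 then 1 else -1) = if (E1 + E2) % 2 = 0 then 1 else -1 := by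
  split_ifs <;> omega

theorem ite_or {p : Prop} [Decidable p] {α : Type*} (a b : α) :
    (p ∧ (if p then a else b) = a) ∨ (¬ p ∧ (if p then a else b) = b) := by
  by_cases h : p
  · exact Or.inl ⟨h, if_pos h⟩
  · exact Or.inr ⟨h, if_neg h⟩

/-- the gauged Kasteleyn weight of an edge, as a sign -/
theorem gauge_aux (n : ℕ) (b w : ℤ × ℤ) (hb : b ∈ region n)
    (hw : w ∈ region n) (he : (w.2 - w.1) % 2 = 0) (hbe : (b.2 - b.1) % 2 = 1) (hadj : Adj w b) :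
    ∃ E : ℤ, ((gb n b : ℤˣ) : ℤ) * ((gw w : ℤˣ) : ℤ) * kast (region n) b w =
      (if E % 2 = 0 then 1 else -1) ∧
      (n % 2 = 0 → (E % 2 = 0 ↔ ¬ (b = (-1, 0) ∧ w = (0, 0)) ∧ w.1 ≠ b.1 - 1)) ∧
      (n % 2 = 1 → (E % 2 = 0 ↔ ¬ (b = (-1, 0) ∧ w = (0, 0)) ∧ w.2 ≠ b.2 + 1)) := by
  obtain ⟨K1, h1, h2, h3⟩ := above_region n w hw he
  obtain ⟨K2, h4, h5, h6⟩ := below_region n b hb hbe
  unfold kast
  rw [if_pos hadj, npow_eq]
  unfold gb gw
  rw [sgn_val, sgn_val]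
  generalize above (region n) w = P at *
  generalize below (region n) b = Q at *
  obtain ⟨x, y⟩ := w
  obtain ⟨x', y'⟩ := b
  rw [mem_region] at hb hw
  unfold Adj at hadj
  simp only [Prod.mk.injEq] at *
  have i1 := ite_or (p := y - x = 0 ∧ x < -1) (1 : ℕ) 0
  have i2 := ite_or (p := y' - x' = 1 ∧ 0 < x') (1 : ℕ) 0
  have i3 := ite_or (p := 1 ≤ y' - x') (1 : ℤ) 0
  have i4 := ite_or (p := 1 ≤ y - x) (1 : ℤ) 0
  generalize (if y - x = 0 ∧ x < -1 then (1 : ℕ) else 0) = a1 at *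
  generalize (if y' - x' = 1 ∧ 0 < x' then (1 : ℕ) else 0) = a2 at *
  generalize (if 1 ≤ y' - x' then (1 : ℤ) else 0) = a3 at *
  generalize (if 1 ≤ y - x then (1 : ℤ) else 0) = a4 at *
  obtain ⟨-, -, hb2⟩ := hb
  obtain ⟨-, hw1, -⟩ := hw
  by_cases hv : y' - x' = y - x + 1
  · rw [if_pos hv, sgn3]
    refine ⟨_, rfl, ?_, ?_⟩
    · intro hn
      rcases hadj with ⟨rfl, rfl | rfl⟩ | ⟨rfl, rfl | rfl⟩
      · omega
      · have hK : (K1 : ℤ) + K2 = n := by omega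
        have hx : x ≠ x - 1 := by omega
        clear h1 h2 h4 h5
        rcases i1 with ⟨i1, rfl⟩ | ⟨i1, rfl⟩ <;> rcases i2 with ⟨i2, rfl⟩ | ⟨i2, rfl⟩ <;> omega
      · have hK : (K1 : ℤ) + K2 = n - 1 := by omega
        clear h1 h2 h4 h5
        rcases i1 with ⟨i1, rfl⟩ | ⟨i1, rfl⟩ <;> rcases i2 with ⟨i2, rfl⟩ | ⟨i2, rfl⟩ <;> omega
      · omega
    · intro hn
      rcases hadj with ⟨rfl, rfl | rfl⟩ | ⟨rfl, rfl | rfl⟩
      · omega
      · have hK : (K1 : ℤ) + K2 = n := by omega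
        clear h1 h2 h4 h5
        rcases i1 with ⟨i1, rfl⟩ | ⟨i1, rfl⟩ <;> rcases i2 with ⟨i2, rfl⟩ | ⟨i2, rfl⟩ <;> omega
      · have hK : (K1 : ℤ) + K2 = n - 1 := by omega
        clear h1 h2 h4 h5
        rcases i1 with ⟨i1, rfl⟩ | ⟨i1, rfl⟩ <;> rcases i2 with ⟨i2, rfl⟩ | ⟨i2, rfl⟩ <;> omega
      · omega
  · rw [if_neg hv, mul_one, sgn2]
    clear h1 h2 h4 h5 i1 i2 h3 h6
    refine ⟨_, rfl, ?_, ?_⟩
    · intro hn
      rcases hadj with ⟨rfl, rfl | rfl⟩ | ⟨rfl, rfl | rfl⟩ <;> omega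
    · intro hn
      rcases hadj with ⟨rfl, rfl | rfl⟩ | ⟨rfl, rfl | rfl⟩ <;> omega

end Pool.Agent.U214.Kn
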