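import Mathlib
import Pool.Agent.U214.Kn.Region
import Pool.Agent.U214.Kn.Eval

set_option autoImplicit false

/-!
The number of domino tilings of the region in terms of four entries of the inverse matrix.
-/

namespace Pool.Agent.U214.Kn

open Finset Pool.Agent.Helper848 Polynomial
open Pool.Agent.Helper848.AztecDet (E O K0 G K0_G abs_det_K0 abs_det_minor)

theorem abs_det_K0' (n : ℕ) (hn : 1 ≤ n) (e : E n ≃ O n) :
    |((K0 n).submatrix e id).det| = 2 ^ (n * (n + 1) / 2) := by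
  obtain ⟨N, rfl⟩ : ∃ N, n = N + 1 := ⟨n - 1, by omega⟩
  exact abs_det_K0 N e

theorem card_eq (n : ℕ) (e2 : E n) (o1 : O n) :
    Fintype.card {x : E n // x ≠ e2} = Fintype.card {o : O n // o ≠ o1} := by
  rw [Fintype.card_subtype_compl, Fintype.card_subtype_compl]
  simp [mul_comm]

theorem count_gen (n : ℕ) (hn : 2 ≤ n) (cE : E n → ℤ × ℤ) (cO : O n → ℤ × ℤ)
    (hEi : Function.Injective cE) (hOi : Function.Injective cO)
    (hEr : ∀ p, (∃ x, cE x = p) ↔ p ∈ aztec n ∧ Even (p.1 + p.2 + 0))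
    (hOr : ∀ p, (∃ x, cO x = p) ↔ p ∈ aztec n ∧ ¬ Even (p.1 + p.2 + 0))
    (o1 oe : O n) (e2 ee : E n) (ho1 : cO o1 = (0, 1)) (he2 : cE e2 = (-1, -1))
    (hne : ee ≠ e2)
    (hent : ∀ o x, o ≠ o1 → x ≠ e2 → (((((gb n (cO o) : ℤˣ) : ℤ) * ((gw (cE x) : ℤˣ) : ℤ) *
      kast (region n) (cO o) (cE x)) : ℤ) : ℚ) = if o = oe ∧ x = ee then -1 else K0 n o x)
    (hκ : K0 n oe ee = 1)
    (H1 H2 : E n → ℚ) (h1 : ∀ o, ∑ x, K0 n o x * H1 x = if o = o1 then 1 else 0)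
    (h2 : ∀ o, ∑ x, K0 n o x * H2 x = if o = oe then 1 else 0) :
    (numTilings (region n) : ℚ) = 2 ^ (n * (n + 1) / 2) *
      |H1 e2 * (1 - 2 * H2 ee) + 2 * (H2 e2 * H1 ee)| := by
  classical
  obtain ⟨φ⟩ : Nonempty ({x : E n // x ≠ e2} ≃ {o : O n // o ≠ o1}) :=
    ⟨Fintype.equivOfCardEq (card_eq n e2 o1)⟩
  let f : {x : E n // x ≠ e2} → ℤ × ℤ := fun x => cE x
  let g : {x : E n // x ≠ e2} → ℤ × ℤ := fun x => cO (φ x)
  let M : Matrix {x : E n // x ≠ e2} {x : E n // x ≠ e2} ℤ := Matrix.of fun i j =>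
    ((gb n (g i) : ℤˣ) : ℤ) * ((gw (f j) : ℤˣ) : ℤ) * kast (region n) (g i) (f j)
  have hreg : ∀ p : ℤ × ℤ, p ∈ region n ↔ p ∈ aztec n ∧ p ≠ (-1, -1) ∧ p ≠ (0, 1) := by
    intro p
    unfold region
    rw [mem_sdiff, mem_insert, mem_singleton, not_or]
  have hcount := numTilings_eq 0 (region n) f g
    (fun a b h => Subtype.ext (hEi h))
    (fun a b h => φ.injective (Subtype.ext (hOi h)))
    (by
      intro p
      rw [hreg]
      constructor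
      · rintro ⟨i, rfl⟩
        have h3 := (hEr (cE i)).1 ⟨i, rfl⟩
        refine ⟨⟨h3.1, ?_, ?_⟩, h3.2⟩
        · intro h
          exact i.2 (hEi (h.trans he2.symm))
        · intro h
          have h4 := h3.2
          change cE i = (0, 1) at h
          rw [h] at h4
          revert h4
          decide
      · rintro ⟨⟨h3, h4, h5⟩, h6⟩
        obtain ⟨x, hx⟩ := (hEr p).2 ⟨h3, h6⟩
        refine ⟨⟨x, ?_⟩, hx⟩
        rintro rfl
        exact h4 (hx.symm.trans he2))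
    (by
      intro p
      rw [hreg]
      constructor
      · rintro ⟨i, rfl⟩
        have h3 := (hOr (cO (φ i))).1 ⟨φ i, rfl⟩
        refine ⟨⟨h3.1, ?_, ?_⟩, h3.2⟩
        · intro h
          have h4 := h3.2
          change cO (φ i) = (-1, -1) at h
          rw [h] at h4
          revert h4
          decide
        · intro h
          exact (φ i).2 (hOi (h.trans ho1.symm))
      · rintro ⟨⟨h3, h4, h5⟩, h6⟩
        obtain ⟨x, hx⟩ := (hOr p).2 ⟨h3, h6⟩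
        refine ⟨φ.symm ⟨x, ?_⟩, ?_⟩
        · rintro rfl
          exact h5 (hx.symm.trans ho1)
        · change cO (φ (φ.symm _)) = p
          rw [Equiv.apply_symm_apply]
          exact hx)
    (fun i => gb n (g i)) (fun j => gw (f j)) M (fun i j => rfl)
  obtain ⟨e, he⟩ := abs_det_minor (K0 n) H1 H2 o1 oe e2 ee hne h1 h2 hκ φ
  rw [abs_det_K0' n (by omega)] at he
  have hM : M.map (Int.castRingHom ℚ) = Matrix.of fun i j : {x : E n // x ≠ e2} =>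
      if (φ i : O n) = oe ∧ (j : E n) = ee then -1 else K0 n (φ i) j := by
    ext i j
    rw [Matrix.map_apply]
    exact hent (φ i) j (φ i).2 j.2
  rw [← he, ← hM]
  have h5 : (M.map (Int.castRingHom ℚ)).det = ((M.det : ℤ) : ℚ) := by
    rw [← RingHom.mapMatrix_apply, ← RingHom.map_det]
    rfl
  rw [h5, hcount, Nat.cast_natAbs, Int.cast_abs]

/-! ### even order -/

/-- cells, even order -/
def cE0 (n : ℕ) (x : E n) : ℤ × ℤ := ((x.2 : ℤ) - (x.1 : ℤ), (x.1 : ℤ) + (x.2 : ℤ) - n)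

/-- cells, even order -/
def cO0 (n : ℕ) (x : O n) : ℤ × ℤ := ((x.2 : ℤ) - (x.1 : ℤ) - 1, (x.1 : ℤ) + (x.2 : ℤ) - n)

/-- cells, odd order -/
def cE1 (n : ℕ) (x : E n) : ℤ × ℤ := ((x.1 : ℤ) + (x.2 : ℤ) - n, (x.1 : ℤ) - (x.2 : ℤ) - 1)

/-- cells, odd order -/
def cO1 (n : ℕ) (x : O n) : ℤ × ℤ := ((x.1 : ℤ) + (x.2 : ℤ) - n, (x.1 : ℤ) - (x.2 : ℤ))

theorem cE0_inj (n : ℕ) : Function.Injective (cE0 n) := by
  rintro ⟨⟨a, ha⟩, ⟨b, hb⟩⟩ ⟨⟨a', ha'⟩, ⟨b', hb'⟩⟩ h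
  simp only [cE0, Prod.mk.injEq] at h
  simp only [Prod.mk.injEq, Fin.mk.injEq]
  omega

theorem cO0_inj (n : ℕ) : Function.Injective (cO0 n) := by
  rintro ⟨⟨a, ha⟩, ⟨b, hb⟩⟩ ⟨⟨a', ha'⟩, ⟨b', hb'⟩⟩ h
  simp only [cO0, Prod.mk.injEq] at h
  simp only [Prod.mk.injEq, Fin.mk.injEq]
  omega

theorem cE1_inj (n : ℕ) : Function.Injective (cE1 n) := by
  rintro ⟨⟨a, ha⟩, ⟨b, hb⟩⟩ ⟨⟨a', ha'⟩, ⟨b', hb'⟩⟩ h
  simp only [cE1, Prod.mk.injEq] at h
  simp only [Prod.mk.injEq, Fin.mk.injEq]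
  omega

theorem cO1_inj (n : ℕ) : Function.Injective (cO1 n) := by
  rintro ⟨⟨a, ha⟩, ⟨b, hb⟩⟩ ⟨⟨a', ha'⟩, ⟨b', hb'⟩⟩ h
  simp only [cO1, Prod.mk.injEq] at h
  simp only [Prod.mk.injEq, Fin.mk.injEq]
  omega

theorem cE0_range (n : ℕ) (hn : n % 2 = 0) (p : ℤ × ℤ) :
    (∃ x, cE0 n x = p) ↔ p ∈ aztec n ∧ Even (p.1 + p.2 + 0) := by
  obtain ⟨x, y⟩ := p
  rw [mem_aztec, Int.even_iff]
  constructor
  · rintro ⟨⟨⟨s, hs⟩, ⟨i, hi⟩⟩, h⟩
    simp only [cE0, Prod.mk.injEq] at h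
    simp only
    omega
  · rintro ⟨h1, h2⟩
    simp only at h1 h2
    refine ⟨(⟨((y - x + n) / 2).toNat, by omega⟩, ⟨((x + y + n) / 2).toNat, by omega⟩), ?_⟩
    simp only [cE0, Prod.mk.injEq]
    omega

theorem cO0_range (n : ℕ) (hn : n % 2 = 0) (p : ℤ × ℤ) :
    (∃ x, cO0 n x = p) ↔ p ∈ aztec n ∧ ¬ Even (p.1 + p.2 + 0) := by
  obtain ⟨x, y⟩ := p
  rw [mem_aztec, Int.even_iff]
  constructor
  · rintro ⟨⟨⟨s, hs⟩, ⟨i, hi⟩⟩, h⟩
    simp only [cO0, Prod.mk.injEq] at h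
    simp only
    omega
  · rintro ⟨h1, h2⟩
    simp only at h1 h2
    refine ⟨(⟨((y - x + n - 1) / 2).toNat, by omega⟩, ⟨((x + y + n + 1) / 2).toNat, by omega⟩), ?_⟩
    simp only [cO0, Prod.mk.injEq]
    omega

theorem cE1_range (n : ℕ) (hn : n % 2 = 1) (p : ℤ × ℤ) :
    (∃ x, cE1 n x = p) ↔ p ∈ aztec n ∧ Even (p.1 + p.2 + 0) := by
  obtain ⟨x, y⟩ := p
  rw [mem_aztec, Int.even_iff]
  constructor
  · rintro ⟨⟨⟨s, hs⟩, ⟨i, hi⟩⟩, h⟩
    simp only [cE1, Prod.mk.injEq] at h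
    simp only
    omega
  · rintro ⟨h1, h2⟩
    simp only at h1 h2
    refine ⟨(⟨((x + y + 1 + n) / 2).toNat, by omega⟩, ⟨((x - y - 1 + n) / 2).toNat, by omega⟩), ?_⟩
    simp only [cE1, Prod.mk.injEq]
    omega

theorem cO1_range (n : ℕ) (hn : n % 2 = 1) (p : ℤ × ℤ) :
    (∃ x, cO1 n x = p) ↔ p ∈ aztec n ∧ ¬ Even (p.1 + p.2 + 0) := by
  obtain ⟨x, y⟩ := p
  rw [mem_aztec, Int.even_iff]
  constructor
  · rintro ⟨⟨⟨s, hs⟩, ⟨i, hi⟩⟩, h⟩
    simp only [cO1, Prod.mk.injEq] at h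
    simp only
    omega
  · rintro ⟨h1, h2⟩
    simp only at h1 h2
    refine ⟨(⟨((x + y + n) / 2).toNat, by omega⟩, ⟨((x - y + n) / 2).toNat, by omega⟩), ?_⟩
    simp only [cO1, Prod.mk.injEq]
    omega

theorem mem_region' (n : ℕ) (p : ℤ × ℤ) : p ∈ region n ↔ p ∈ aztec n ∧ p ≠ (-1, -1) ∧ p ≠ (0, 1) := by
  unfold region
  rw [mem_sdiff, mem_insert, mem_singleton, not_or]

theorem K0_eval (n : ℕ) (s t s' i : ℕ) (h1 : s < n) (h2 : t < n + 1) (h3 : s' < n + 1) (h4 : i < n) :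
    K0 n (⟨s, h1⟩, ⟨t, h2⟩) (⟨s', h3⟩, ⟨i, h4⟩) =
      (if s' = s + 1 then (1 : ℚ) else 0) * ((if i = t then 1 else 0) - (if i + 1 = t then 1 else 0)) +
      (if s' = s then (1 : ℚ) else 0) * ((if i = t then 1 else 0) + (if i + 1 = t then 1 else 0)) :=
  rfl

theorem entry_even (n : ℕ) (hn : n % 2 = 0) (o : O n) (x : E n) (ho : cO0 n o ≠ (0, 1))
    (hx : cE0 n x ≠ (-1, -1)) :
    (((((gb n (cO0 n o) : ℤˣ) : ℤ) * ((gw (cE0 n x) : ℤˣ) : ℤ) *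
      kast (region n) (cO0 n o) (cE0 n x)) : ℤ) : ℚ) =
      if cO0 n o = (-1, 0) ∧ cE0 n x = (0, 0) then -1 else K0 n o x := by
  have hwr := (cE0_range n hn (cE0 n x)).1 ⟨x, rfl⟩
  have hbr := (cO0_range n hn (cO0 n o)).1 ⟨o, rfl⟩
  have hw : cE0 n x ∈ region n := by
    rw [mem_region']
    refine ⟨hwr.1, hx, ?_⟩
    intro h
    have h4 := hwr.2
    rw [h] at h4
    revert h4
    decide
  have hb : cO0 n o ∈ region n := by
    rw [mem_region']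
    refine ⟨hbr.1, ?_, ho⟩
    intro h
    have h4 := hbr.2
    rw [h] at h4
    revert h4
    decide
  have hwe := hwr.2
  have hbe := hbr.2
  rw [Int.even_iff] at hwe hbe
  by_cases hadj : Adj (cE0 n x) (cO0 n o)
  · obtain ⟨e, he, h0, -⟩ := gauge_aux n (cO0 n o) (cE0 n x) hb hw (by omega) (by omega) hadj
    have h0' := h0 hn
    rw [he]
    obtain ⟨⟨s, hs⟩, ⟨t, ht⟩⟩ := o
    obtain ⟨⟨s', hs'⟩, ⟨i, hi⟩⟩ := x
    by_cases hsp : cO0 n (⟨s, hs⟩, ⟨t, ht⟩) = (-1, 0) ∧ cE0 n (⟨s', hs'⟩, ⟨i, hi⟩) = (0, 0)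
    · have h5 : ¬ e % 2 = 0 := by
        rw [h0']
        exact fun h => h.1 hsp
      rw [if_pos hsp, if_neg h5]
      norm_num
    · rw [if_neg hsp, K0_eval]
      have h6 : e % 2 = 0 ↔ (cE0 n (⟨s', hs'⟩, ⟨i, hi⟩)).1 ≠ (cO0 n (⟨s, hs⟩, ⟨t, ht⟩)).1 - 1 := by
        rw [h0']
        exact ⟨fun h => h.2, fun h => ⟨hsp, h⟩⟩
      unfold Adj at hadj
      simp only [cE0, cO0] at hadj h6
      have hc : (s' = s + 1 ∧ i = t) ∨ (s' = s + 1 ∧ i + 1 = t) ∨ (s' = s ∧ i = t) ∨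
        (s' = s ∧ i + 1 = t) := by omega
      rcases hc with ⟨rfl, rfl⟩ | ⟨rfl, rfl⟩ | ⟨rfl, rfl⟩ | ⟨rfl, rfl⟩
      · rw [if_pos (h6.2 (by push_cast; omega))]
        simp
      · rw [if_neg (fun h => (h6.1 h) (by push_cast; omega))]
        simp
      · rw [if_pos (h6.2 (by push_cast; omega))]
        simp
      · rw [if_pos (h6.2 (by push_cast; omega))]
        simp
  · unfold kast
    rw [if_neg hadj, mul_zero, Int.cast_zero]
    obtain ⟨⟨s, hs⟩, ⟨t, ht⟩⟩ := o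
    obtain ⟨⟨s', hs'⟩, ⟨i, hi⟩⟩ := x
    have hsp : ¬ (cO0 n (⟨s, hs⟩, ⟨t, ht⟩) = (-1, 0) ∧ cE0 n (⟨s', hs'⟩, ⟨i, hi⟩) = (0, 0)) := by
      rintro ⟨h5, h6⟩
      apply hadj
      rw [h5, h6]
      unfold Adj
      simp
    rw [if_neg hsp, K0_eval]
    unfold Adj at hadj
    simp only [cE0, cO0] at hadj
    by_cases c1 : s' = s + 1
    · have c2 : ¬ s' = s := by omega
      have c3 : ¬ i = t := by omega
      have c4 : ¬ i + 1 = t := by omega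
      simp [c1, c3, c4]
    · by_cases c2 : s' = s
      · have c3 : ¬ i = t := by omega
        have c4 : ¬ i + 1 = t := by omega
        simp [c2, c3, c4]
      · simp [c1, c2]

theorem entry_odd (n : ℕ) (hn : n % 2 = 1) (o : O n) (x : E n) (ho : cO1 n o ≠ (0, 1))
    (hx : cE1 n x ≠ (-1, -1)) :
    (((((gb n (cO1 n o) : ℤˣ) : ℤ) * ((gw (cE1 n x) : ℤˣ) : ℤ) *
      kast (region n) (cO1 n o) (cE1 n x)) : ℤ) : ℚ) =
      if cO1 n o = (-1, 0) ∧ cE1 n x = (0, 0) then -1 else K0 n o x := by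
  have hwr := (cE1_range n hn (cE1 n x)).1 ⟨x, rfl⟩
  have hbr := (cO1_range n hn (cO1 n o)).1 ⟨o, rfl⟩
  have hw : cE1 n x ∈ region n := by
    rw [mem_region']
    refine ⟨hwr.1, hx, ?_⟩
    intro h
    have h4 := hwr.2
    rw [h] at h4
    revert h4
    decide
  have hb : cO1 n o ∈ region n := by
    rw [mem_region']
    refine ⟨hbr.1, ?_, ho⟩
    intro h
    have h4 := hbr.2
    rw [h] at h4
    revert h4
    decide
  have hwe := hwr.2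
  have hbe := hbr.2
  rw [Int.even_iff] at hwe hbe
  by_cases hadj : Adj (cE1 n x) (cO1 n o)
  · obtain ⟨e, he, -, h0⟩ := gauge_aux n (cO1 n o) (cE1 n x) hb hw (by omega) (by omega) hadj
    have h0' := h0 hn
    rw [he]
    obtain ⟨⟨s, hs⟩, ⟨t, ht⟩⟩ := o
    obtain ⟨⟨s', hs'⟩, ⟨i, hi⟩⟩ := x
    by_cases hsp : cO1 n (⟨s, hs⟩, ⟨t, ht⟩) = (-1, 0) ∧ cE1 n (⟨s', hs'⟩, ⟨i, hi⟩) = (0, 0)
    · have h5 : ¬ e % 2 = 0 := by
        rw [h0']
        exact fun h => h.1 hsp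
      rw [if_pos hsp, if_neg h5]
      norm_num
    · rw [if_neg hsp, K0_eval]
      have h6 : e % 2 = 0 ↔ (cE1 n (⟨s', hs'⟩, ⟨i, hi⟩)).2 ≠ (cO1 n (⟨s, hs⟩, ⟨t, ht⟩)).2 + 1 := by
        rw [h0']
        exact ⟨fun h => h.2, fun h => ⟨hsp, h⟩⟩
      unfold Adj at hadj
      simp only [cE1, cO1] at hadj h6
      have hc : (s' = s + 1 ∧ i = t) ∨ (s' = s + 1 ∧ i + 1 = t) ∨ (s' = s ∧ i = t) ∨
        (s' = s ∧ i + 1 = t) := by omega
      rcases hc with ⟨rfl, rfl⟩ | ⟨rfl, rfl⟩ | ⟨rfl, rfl⟩ | ⟨rfl, rfl⟩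
      · rw [if_pos (h6.2 (by push_cast; omega))]
        simp
      · rw [if_neg (fun h => (h6.1 h) (by push_cast; omega))]
        simp
      · rw [if_pos (h6.2 (by push_cast; omega))]
        simp
      · rw [if_pos (h6.2 (by push_cast; omega))]
        simp
  · unfold kast
    rw [if_neg hadj, mul_zero, Int.cast_zero]
    obtain ⟨⟨s, hs⟩, ⟨t, ht⟩⟩ := o
    obtain ⟨⟨s', hs'⟩, ⟨i, hi⟩⟩ := x
    have hsp : ¬ (cO1 n (⟨s, hs⟩, ⟨t, ht⟩) = (-1, 0) ∧ cE1 n (⟨s', hs'⟩, ⟨i, hi⟩) = (0, 0)) := by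
      rintro ⟨h5, h6⟩
      apply hadj
      rw [h5, h6]
      unfold Adj
      simp
    rw [if_neg hsp, K0_eval]
    unfold Adj at hadj
    simp only [cE1, cO1] at hadj
    by_cases c1 : s' = s + 1
    · have c2 : ¬ s' = s := by omega
      have c3 : ¬ i = t := by omega
      have c4 : ¬ i + 1 = t := by omega
      simp [c1, c3, c4]
    · by_cases c2 : s' = s
      · have c3 : ¬ i = t := by omega
        have c4 : ¬ i + 1 = t := by omega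
        simp [c2, c3, c4]
      · simp [c1, c2]

end Pool.Agent.U214.Kn
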