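import Mathlib
import Pool.Agent.U214.Kn.Count

set_option autoImplicit false

/-!
The number of domino tilings of the Aztec diamond without a central knight's move pair.
-/

namespace Pool.Agent.U214.Kn

open Finset Pool.Agent.Helper848 Polynomial
open Pool.Agent.Helper848.AztecDet (E O K0 G K0_G)

theorem count_even (M : ℕ) :
    (numTilings (region (2 * (M + 1))) : ℚ) =
      2 ^ ((2 * (M + 1)) * (2 * (M + 1) + 1) / 2) *
      |(G (2 * (M + 1)) (γb M) (M + 1 + 1) (M + 1)).coeff M *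
        (1 - 2 * (G (2 * (M + 1)) (γa (M + 1)) (M + 1 + 1) (M + 1)).coeff (M + 1)) +
        2 * ((G (2 * (M + 1)) (γa (M + 1)) (M + 1 + 1) (M + 1)).coeff M *
          (G (2 * (M + 1)) (γb M) (M + 1 + 1) (M + 1)).coeff (M + 1))| := by
  have h := count_gen (2 * (M + 1)) (by omega) (cE0 _) (cO0 _) (cE0_inj _) (cO0_inj _)
    (cE0_range _ (by omega)) (cO0_range _ (by omega))
    (⟨M + 1, by omega⟩, ⟨M + 2, by omega⟩) (⟨M + 1, by omega⟩, ⟨M + 1, by omega⟩)
    (⟨M + 1, by omega⟩, ⟨M, by omega⟩) (⟨M + 1, by omega⟩, ⟨M + 1, by omega⟩)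
    (by simp only [cO0, Prod.mk.injEq]; push_cast; omega)
    (by simp only [cE0, Prod.mk.injEq]; push_cast; omega)
    (by simp)
    (by
      intro o x ho hx
      rw [entry_even _ (by omega) o x]
      · congr 1
        rw [eq_iff_iff]
        obtain ⟨⟨s, hs⟩, ⟨t, ht⟩⟩ := o
        obtain ⟨⟨s', hs'⟩, ⟨i, hi⟩⟩ := x
        simp only [cO0, cE0, Prod.mk.injEq, Fin.mk.injEq]
        push_cast
        omega
      · intro h
        apply ho
        obtain ⟨⟨s, hs⟩, ⟨t, ht⟩⟩ := o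
        simp only [cO0, Prod.mk.injEq, Fin.mk.injEq] at h ⊢
        push_cast at h
        omega
      · intro h
        apply hx
        obtain ⟨⟨s, hs⟩, ⟨t, ht⟩⟩ := x
        simp only [cE0, Prod.mk.injEq, Fin.mk.injEq] at h ⊢
        push_cast at h
        omega)
    (by rw [K0_eval]; simp)
    (fun x => (G (2 * (M + 1)) (γb M) (M + 1 + 1) x.1).coeff x.2)
    (fun x => (G (2 * (M + 1)) (γa (M + 1)) (M + 1 + 1) x.1).coeff x.2)
    (by
      intro o
      rw [K0_G (2 * (M + 1)) (γb M) (M + 1 + 1) (M + 1 + 1) (by omega) (by omega) (γb_expand M) o]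
      congr 1
      rw [eq_iff_iff]
      obtain ⟨⟨s, hs⟩, ⟨t, ht⟩⟩ := o
      simp only [Prod.mk.injEq, Fin.mk.injEq]
      omega)
    (by
      intro o
      rw [K0_G (2 * (M + 1)) (γa (M + 1)) (M + 1 + 1) (M + 1) (by omega) (by omega)
        (γa_expand (M + 1)) o]
      congr 1
      rw [eq_iff_iff]
      obtain ⟨⟨s, hs⟩, ⟨t, ht⟩⟩ := o
      simp only [Prod.mk.injEq, Fin.mk.injEq]
      omega)
  exact h

theorem count_odd (N : ℕ) (hN : 1 ≤ N) :
    (numTilings (region (2 * N + 1)) : ℚ) =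
      2 ^ ((2 * N + 1) * (2 * N + 1 + 1) / 2) *
      |(G (2 * N + 1) (γc N) (N + 2) N).coeff N *
        (1 - 2 * (G (2 * N + 1) (γc N) (N + 1) (N + 1)).coeff N) +
        2 * ((G (2 * N + 1) (γc N) (N + 1) N).coeff N *
          (G (2 * N + 1) (γc N) (N + 2) (N + 1)).coeff N)| := by
  have h := count_gen (2 * N + 1) (by omega) (cE1 _) (cO1 _) (cE1_inj _) (cO1_inj _)
    (cE1_range _ (by omega)) (cO1_range _ (by omega))
    (⟨N + 1, by omega⟩, ⟨N, by omega⟩) (⟨N, by omega⟩, ⟨N, by omega⟩)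
    (⟨N, by omega⟩, ⟨N, by omega⟩) (⟨N + 1, by omega⟩, ⟨N, by omega⟩)
    (by simp only [cO1, Prod.mk.injEq]; push_cast; omega)
    (by simp only [cE1, Prod.mk.injEq]; push_cast; omega)
    (by simp)
    (by
      intro o x ho hx
      rw [entry_odd _ (by omega) o x]
      · congr 1
        rw [eq_iff_iff]
        obtain ⟨⟨s, hs⟩, ⟨t, ht⟩⟩ := o
        obtain ⟨⟨s', hs'⟩, ⟨i, hi⟩⟩ := x
        simp only [cO1, cE1, Prod.mk.injEq, Fin.mk.injEq]
        push_cast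
        omega
      · intro h
        apply ho
        obtain ⟨⟨s, hs⟩, ⟨t, ht⟩⟩ := o
        simp only [cO1, Prod.mk.injEq, Fin.mk.injEq] at h ⊢
        push_cast at h
        omega
      · intro h
        apply hx
        obtain ⟨⟨s, hs⟩, ⟨t, ht⟩⟩ := x
        simp only [cE1, Prod.mk.injEq, Fin.mk.injEq] at h ⊢
        push_cast at h
        omega)
    (by rw [K0_eval]; simp)
    (fun x => (G (2 * N + 1) (γc N) (N + 2) x.1).coeff x.2)
    (fun x => (G (2 * N + 1) (γc N) (N + 1) x.1).coeff x.2)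
    (by
      intro o
      rw [K0_G (2 * N + 1) (γc N) (N + 2) N (by omega) (by omega) (γc_expand N) o]
      congr 1
      rw [eq_iff_iff]
      obtain ⟨⟨s, hs⟩, ⟨t, ht⟩⟩ := o
      simp only [Prod.mk.injEq, Fin.mk.injEq]
      omega)
    (by
      intro o
      rw [K0_G (2 * N + 1) (γc N) (N + 1) N (by omega) (by omega)
        (γc_expand N) o]
      congr 1
      rw [eq_iff_iff]
      obtain ⟨⟨s, hs⟩, ⟨t, ht⟩⟩ := o
      simp only [Prod.mk.injEq, Fin.mk.injEq]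
      omega)
  exact h

theorem c_pos (m : ℕ) : 0 < c m := by
  unfold c
  have := Nat.centralBinom_pos m
  positivity

theorem c_le_one (m : ℕ) : c m ≤ 1 := by
  unfold c
  rw [div_le_one (by positivity)]
  exact_mod_cast Nat.centralBinom_le_four_pow m

theorem S_even' (m : ℕ) : S (m + 1) (2 * m) = (1 - c m ^ 2) / 2 := half_even' m
theorem S_even (m : ℕ) : S m (2 * m) = (1 + c m ^ 2) / 2 := half_even m
theorem S_odd (m : ℕ) : S (m + 1) (2 * m + 1) = 1 / 2 := half_odd m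

/-- order `4m` -/
theorem main0 (m : ℕ) (hm : 1 ≤ m) : (numTilings (region (4 * m)) : ℚ) =
    2 ^ (2 * m * (4 * m + 1)) * (m * c m ^ 2 * (1 + c m ^ 2) / 2) := by
  obtain ⟨M, hM⟩ : ∃ M, M + 1 = 2 * m := ⟨2 * m - 1, by omega⟩
  have h := count_even M
  have ha := Ha M
  have hb := Hb M
  have e1 : (M + 3) / 2 = m + 1 := by omega
  have e2 : (M + 2) / 2 = m := by omega
  have e3 : M + 2 - m = m + 1 := by omega
  rw [e1, hM] at ha
  rw [e2, e3, hM] at hb
  rw [S_even'] at ha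
  rw [S_even] at hb
  rw [hM] at h
  obtain ⟨ha1, ha2⟩ := ha
  obtain ⟨hb1, hb2⟩ := hb
  rw [ha1, ha2, hb1] at h
  set q := (G (2 * (2 * m)) (γb M) (2 * m + 1) (2 * m)).coeff M
  have hMq : (M : ℚ) + 1 = 2 * m := by exact_mod_cast hM
  rw [hMq] at hb2
  have hm0 : (m : ℚ) ≠ 0 := by
    have : (0 : ℚ) < m := by exact_mod_cast hm
    exact this.ne'
  have hc := c_succ m
  push_cast at hb2
  have hq : q = (2 * m + 1) * c m ^ 2 / 2 - (1 + c m ^ 2) / 4 := by
    have h2 : 2 * ((m : ℚ) * c m) * ((m + 1) * c (m + 1)) = m * (c m * ((2 * m + 1) * c m)) := by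
      rw [← hc]; ring
    rw [h2] at hb2
    have h3 : (2 * (m : ℚ)) ≠ 0 := by positivity
    apply mul_left_cancel₀ h3
    linear_combination hb2
  have e4 : 2 * (2 * m) = 4 * m := by ring
  have e5 : 2 * (2 * m) * (2 * (2 * m) + 1) / 2 = 2 * m * (4 * m + 1) := by
    have : 2 * (2 * m) * (2 * (2 * m) + 1) = 2 * (2 * m * (4 * m + 1)) := by ring
    rw [this, Nat.mul_div_cancel_left _ (by norm_num)]
  rw [e5, e4] at h
  rw [h, hq]
  congr 1
  have h6 : ((2 * (m : ℚ) + 1) * c m ^ 2 / 2 - (1 + c m ^ 2) / 4) * (1 - 2 * ((1 - c m ^ 2) / 2 / 2)) +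
      2 * ((1 - c m ^ 2) / 2 / 2 * ((1 + c m ^ 2) / 2 / 2)) =
      m * c m ^ 2 * (1 + c m ^ 2) / 2 := by ring
  rw [h6]
  apply abs_of_nonneg
  have := c_pos m
  positivity

/-- order `4m + 2` -/
theorem main2 (m : ℕ) : (numTilings (region (4 * m + 2)) : ℚ) =
    2 ^ ((2 * m + 1) * (4 * m + 3)) * ((2 * m + 1) * c m ^ 2 / 4) := by
  have h := count_even (2 * m)
  have ha := Ha (2 * m)
  have hb := Hb (2 * m)
  have e1 : (2 * m + 3) / 2 = m + 1 := by omega
  have e2 : (2 * m + 2) / 2 = m + 1 := by omega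
  have e3 : 2 * m + 2 - (m + 1) = m + 1 := by omega
  rw [e1] at ha
  rw [e2, e3] at hb
  rw [S_odd] at ha hb
  obtain ⟨ha1, ha2⟩ := ha
  obtain ⟨hb1, hb2⟩ := hb
  rw [ha1, ha2, hb1] at h
  set q := (G (2 * (2 * m + 1)) (γb (2 * m)) (2 * m + 1 + 1) (2 * m + 1)).coeff (2 * m)
  have hc := c_succ m
  push_cast at hb2
  have hq : q = (2 * m + 1) * c m ^ 2 / 2 - 1 / 4 := by
    have h2 : 2 * (((m : ℚ) + 1) * c (m + 1)) * ((m + 1) * c (m + 1)) =
        (2 * m + 1) * c m * ((2 * m + 1) * c m) / 2 := by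
      rw [← hc]; ring
    rw [h2] at hb2
    have h3 : (2 * (m : ℚ) + 1) ≠ 0 := by positivity
    apply mul_left_cancel₀ h3
    linear_combination hb2
  have e4 : 2 * (2 * m + 1) = 4 * m + 2 := by ring
  have e5 : 2 * (2 * m + 1) * (2 * (2 * m + 1) + 1) / 2 = (2 * m + 1) * (4 * m + 3) := by
    have : 2 * (2 * m + 1) * (2 * (2 * m + 1) + 1) = 2 * ((2 * m + 1) * (4 * m + 3)) := by ring
    rw [this, Nat.mul_div_cancel_left _ (by norm_num)]
  rw [e5, e4] at h
  rw [h, hq]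
  congr 1
  have h6 : ((2 * (m : ℚ) + 1) * c m ^ 2 / 2 - 1 / 4) * (1 - 2 * (1 / 2 / 2)) +
      2 * (1 / 2 / 2 * (1 / 2 / 2)) = (2 * m + 1) * c m ^ 2 / 4 := by ring
  rw [h6]
  apply abs_of_nonneg
  positivity

/-- order `4m + 1` -/
theorem main1 (m : ℕ) (hm : 1 ≤ m) : (numTilings (region (4 * m + 1)) : ℚ) =
    2 ^ ((4 * m + 1) * (2 * m + 1)) * ((2 * m + 1) * c m ^ 2 * (1 - c m ^ 2) / 4) := by
  have h := count_odd (2 * m) (by omega)
  rw [Hc_d, Hc_a, Hd_d _ (by omega), Hd_a _ (by omega)] at h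
  have e1 : (2 * m + 2) / 2 = m + 1 := by omega
  have e2 : (2 * m + 1) / 2 = m := by omega
  have e3 : 2 * m - m = m := by omega
  rw [e1, e2, e3, S_even', S_even] at h
  have e4 : 2 * (2 * m) + 1 = 4 * m + 1 := by ring
  have e5 : (2 * (2 * m) + 1) * (2 * (2 * m) + 1 + 1) / 2 = (4 * m + 1) * (2 * m + 1) := by
    have : (2 * (2 * m) + 1) * (2 * (2 * m) + 1 + 1) = 2 * ((4 * m + 1) * (2 * m + 1)) := by ring
    rw [this, Nat.mul_div_cancel_left _ (by norm_num)]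
  rw [e5, e4] at h
  rw [h]
  congr 1
  have h6 : (c m * ((m : ℚ) * c m) - (1 - c m ^ 2) / 2 / 2) *
      (1 - 2 * ((1 - (1 - c m ^ 2) / 2) / 2)) +
      2 * ((1 + c m ^ 2) / 2 / 2 * ((1 - c m ^ 2) / 2 / 2)) =
      (2 * m + 1) * c m ^ 2 * (1 - c m ^ 2) / 4 := by ring
  rw [h6]
  apply abs_of_nonneg
  have h7 := c_pos m
  have h8 := c_le_one m
  have h9 : 0 ≤ 1 - c m ^ 2 := by nlinarith
  positivity

/-- order `4m + 3` -/
theorem main3 (m : ℕ) : (numTilings (region (4 * m + 3)) : ℚ) =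
    2 ^ ((4 * m + 3) * (2 * m + 2)) * ((2 * m + 1) ^ 2 * c m ^ 2 / (8 * (m + 1))) := by
  have h := count_odd (2 * m + 1) (by omega)
  rw [Hc_d, Hc_a, Hd_d _ (by omega), Hd_a _ (by omega)] at h
  have e1 : (2 * m + 1 + 2) / 2 = m + 1 := by omega
  have e2 : (2 * m + 1 + 1) / 2 = m + 1 := by omega
  have e3 : 2 * m + 1 - (m + 1) = m := by omega
  have h1 : S (m + 1 + 1) (2 * m + 1) = 1 / 2 - c (m + 1) * c m := by
    have h2 := S_odd m
    unfold S at h2 ⊢
    rw [Finset.sum_eq_sum_Ico_succ_bot (by omega), e3] at h2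
    linarith
  rw [e1, e2, e3, h1, S_odd] at h
  have e4 : 2 * (2 * m + 1) + 1 = 4 * m + 3 := by ring
  have e5 : (2 * (2 * m + 1) + 1) * (2 * (2 * m + 1) + 1 + 1) / 2 = (4 * m + 3) * (2 * m + 2) := by
    have : (2 * (2 * m + 1) + 1) * (2 * (2 * m + 1) + 1 + 1) =
        2 * ((4 * m + 3) * (2 * m + 2)) := by ring
    rw [this, Nat.mul_div_cancel_left _ (by norm_num)]
  rw [e5, e4] at h
  rw [h]
  congr 1
  have hc := c_succ m
  have hm1 : ((m : ℚ) + 1) ≠ 0 := by positivity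
  have hc' : c (m + 1) = (2 * m + 1) * c m / (2 * (m + 1)) := by
    rw [← hc]; field_simp
  have h6 : (c (m + 1) * ((m : ℚ) * c m) - (1 / 2 - c (m + 1) * c m) / 2) *
      (1 - 2 * ((1 - 1 / 2) / 2)) + 2 * (1 / 2 / 2 * (1 / 2 / 2)) =
      (2 * m + 1) ^ 2 * c m ^ 2 / (8 * (m + 1)) := by
    rw [hc']
    field_simp
    ring
  rw [h6]
  apply abs_of_nonneg
  positivity

end Pool.Agent.U214.Kn
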